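import Mathlib

/-!
Nested grid-equidistributed sequences: the local obstruction.
-/

namespace Pool.Agent.R145.Nest

/-- The half-open unit square. -/
def Q : Set (ℝ × ℝ) := {p | 0 ≤ p.1 ∧ p.1 < 1 ∧ 0 ≤ p.2 ∧ p.2 < 1}

/-- The cell `[i/k, (i+1)/k) × [j/k, (j+1)/k)` of the `k × k` grid, `0 ≤ i, j < k`. -/
def cell (k i j : ℕ) : Set (ℝ × ℝ) :=
  {p | (i : ℝ) / k ≤ p.1 ∧ p.1 < ((i : ℝ) + 1) / k ∧ (j : ℝ) / k ≤ p.2 ∧ p.2 < ((j : ℝ) + 1) / k}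

/-- A sequence of `K^2` points is `K`-good: for every `k ≤ K` each cell of the `k × k` grid
contains exactly one of the first `k^2` points. -/
def KGood (K : ℕ) (x : Fin (K ^ 2) → ℝ × ℝ) : Prop :=
  (∀ n, x n ∈ Q) ∧ ∀ k, 1 ≤ k → k ≤ K → ∀ i < k, ∀ j < k,
    ∃! n : Fin (K ^ 2), n.1 < k ^ 2 ∧ x n ∈ cell k i j

/-- same cell of the grid of order `l` -/
def Same (l : ℕ) (p q : ℝ × ℝ) : Prop :=
  ⌊(l : ℝ) * p.1⌋₊ = ⌊(l : ℝ) * q.1⌋₊ ∧ ⌊(l : ℝ) * p.2⌋₊ = ⌊(l : ℝ) * q.2⌋₊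

theorem mem_cell_iff {k : ℕ} (hk : 1 ≤ k) {p : ℝ × ℝ} (hp : p ∈ Q) (i j : ℕ) :
    p ∈ cell k i j ↔ ⌊(k : ℝ) * p.1⌋₊ = i ∧ ⌊(k : ℝ) * p.2⌋₊ = j := by
  have hk' : (0 : ℝ) < k := by exact_mod_cast hk
  obtain ⟨h1, _, h3, _⟩ := hp
  rw [Nat.floor_eq_iff (by positivity), Nat.floor_eq_iff (by positivity)]
  simp only [cell, Set.mem_ofPred_eq, div_le_iff₀ hk', lt_div_iff₀ hk']
  constructor
  · rintro ⟨a, b, c, d⟩
    exact ⟨⟨by linarith, by linarith⟩, ⟨by linarith, by linarith⟩⟩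
  · rintro ⟨⟨a, b⟩, ⟨c, d⟩⟩
    exact ⟨by linarith, by linarith, by linarith, by linarith⟩

theorem floor_lt {k : ℕ} {t : ℝ} (h0 : 0 ≤ t) (h1 : t < 1) (hk : 1 ≤ k) : ⌊(k : ℝ) * t⌋₊ < k := by
  have hk' : (0 : ℝ) < k := by exact_mod_cast hk
  rw [Nat.floor_lt (by positivity)]
  nlinarith

/-- in a good sequence two of the first `l^2` points in the same `l`-cell are equal -/
theorem KGood.inj {K : ℕ} {x : Fin (K ^ 2) → ℝ × ℝ} (hx : KGood K x) {l : ℕ} (hl : 1 ≤ l)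
    (hlK : l ≤ K) {n n' : Fin (K ^ 2)} (hn : n.1 < l ^ 2) (hn' : n'.1 < l ^ 2)
    (h : Same l (x n) (x n')) : n = n' := by
  have hQ := hx.1 n
  have hQ' := hx.1 n'
  obtain ⟨m, _, hm⟩ := hx.2 l hl hlK ⌊(l : ℝ) * (x n).1⌋₊ (floor_lt hQ.1 hQ.2.1 hl)
    ⌊(l : ℝ) * (x n).2⌋₊ (floor_lt hQ.2.2.1 hQ.2.2.2 hl)
  have e1 := hm n ⟨hn, (mem_cell_iff hl hQ _ _).2 ⟨rfl, rfl⟩⟩
  have e2 := hm n' ⟨hn', (mem_cell_iff hl hQ' _ _).2 ⟨h.1.symm, h.2.symm⟩⟩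
  rw [e1, e2]

/-- in a good sequence each `l`-cell contains one of the first `l^2` points -/
theorem KGood.ex {K : ℕ} {x : Fin (K ^ 2) → ℝ × ℝ} (hx : KGood K x) {l : ℕ} (hl : 1 ≤ l)
    (hlK : l ≤ K) {i j : ℕ} (hi : i < l) (hj : j < l) :
    ∃ n : Fin (K ^ 2), n.1 < l ^ 2 ∧ ⌊(l : ℝ) * (x n).1⌋₊ = i ∧ ⌊(l : ℝ) * (x n).2⌋₊ = j := by
  obtain ⟨n, ⟨h1, h2⟩, _⟩ := hx.2 l hl hlK i hi j hj
  exact ⟨n, h1, (mem_cell_iff hl (hx.1 n) _ _).1 h2⟩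

/-- a point `p` that cannot be added at time `k+1` -/
def Blocked (K k : ℕ) (p : ℝ × ℝ) : Prop :=
  ∃ j, 1 ≤ j ∧ j ≤ k ∧ ∀ q : ℝ × ℝ, 0 ≤ q.1 → 0 ≤ q.2 → Same j p q →
    ∃ l, k + 1 ≤ l ∧ l ≤ K ∧ Same l p q

theorem KGood.not_blocked {K : ℕ} {x : Fin (K ^ 2) → ℝ × ℝ} (hx : KGood K x) {k : ℕ}
    {n : Fin (K ^ 2)} (h1 : k ^ 2 ≤ n.1) (h2 : n.1 < (k + 1) ^ 2) (hkK : k + 1 ≤ K) :
    ¬ Blocked K k (x n) := by
  rintro ⟨j, hj1, hjk, h⟩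
  have hQ := hx.1 n
  obtain ⟨n', hn', e1, e2⟩ := hx.ex hj1 (by omega) (floor_lt hQ.1 hQ.2.1 hj1)
    (floor_lt hQ.2.2.1 hQ.2.2.2 hj1)
  have hQ' := hx.1 n'
  obtain ⟨l, hl1, hl2, hs⟩ := h (x n') hQ'.1 hQ'.2.2.1 ⟨e1.symm, e2.symm⟩
  have hjk2 : j ^ 2 ≤ k ^ 2 := Nat.pow_le_pow_left hjk 2
  have hkl2 : (k + 1) ^ 2 ≤ l ^ 2 := Nat.pow_le_pow_left hl1 2
  have hk2 : k ^ 2 ≤ (k + 1) ^ 2 := Nat.pow_le_pow_left (by omega) 2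
  have := hx.inj (by omega) hl2 (show n.1 < l ^ 2 by omega) (show n'.1 < l ^ 2 by omega) hs
  rw [this] at h1
  omega

/-- certificates for blocked rectangles -/
inductive Cert
  | leaf (l : List (ℕ × ℕ × ℕ × ℕ × ℕ)) : Cert
  | sx (n d : ℕ) (a b : Cert) : Cert
  | sy (n d : ℕ) (a b : Cert) : Cert

/-- one-dimensional check, left side -/
def okL (j l n1 d1 n2 d2 : ℕ) : Bool :=
  Nat.ble (n2 * j) ((j * n1 / d1 + 1) * d2) && Nat.ble (n2 * l) ((l * n1 / d1 + 1) * d2) &&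
    Nat.ble ((l * n1 / d1) * j) ((j * n1 / d1) * l)

/-- one-dimensional check, right side -/
def okR (j l n1 d1 n2 d2 : ℕ) : Bool :=
  Nat.ble (n2 * j) ((j * n1 / d1 + 1) * d2) && Nat.ble (n2 * l) ((l * n1 / d1 + 1) * d2) &&
    Nat.ble ((j * n1 / d1 + 1) * l) ((l * n1 / d1 + 1) * j)

theorem floor_of {j n1 d1 n2 d2 : ℕ} (hd1 : 0 < d1) (hd2 : 0 < d2)
    (h1 : n2 * j ≤ (j * n1 / d1 + 1) * d2) {p : ℝ} (hp1 : (n1 : ℝ) / d1 ≤ p)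
    (hp2 : p < (n2 : ℝ) / d2) (hj : 1 ≤ j) :
    ((j * n1 / d1 : ℕ) : ℝ) ≤ j * p ∧ (j : ℝ) * p < ((j * n1 / d1 : ℕ) : ℝ) + 1 := by
  have hd1' : (0 : ℝ) < d1 := by exact_mod_cast hd1
  have hd2' : (0 : ℝ) < d2 := by exact_mod_cast hd2
  have hj' : (0 : ℝ) < j := by exact_mod_cast hj
  constructor
  · have e1 : ((j * n1 / d1 : ℕ) : ℝ) ≤ (j * n1 : ℝ) / d1 := by
      have := @Nat.cast_div_le ℝ _ _ _ (j * n1) d1
      push_cast at this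
      exact this
    have e2 : (j * n1 : ℝ) / d1 = j * (n1 / d1) := by ring
    rw [e2] at e1
    exact e1.trans (mul_le_mul_of_nonneg_left hp1 hj'.le)
  · have e1 : (n2 : ℝ) * j ≤ (((j * n1 / d1 : ℕ) : ℝ) + 1) * d2 := by exact_mod_cast h1
    have e2 : (j : ℝ) * p < j * (n2 / d2) := mul_lt_mul_of_pos_left hp2 hj'
    have e3 : (j : ℝ) * (n2 / d2) ≤ ((j * n1 / d1 : ℕ) : ℝ) + 1 := by
      rw [← mul_div_assoc, div_le_iff₀ hd2']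
      linarith
    linarith

theorem okL_spec {j l n1 d1 n2 d2 : ℕ} (h : okL j l n1 d1 n2 d2 = true) (hd1 : 0 < d1)
    (hd2 : 0 < d2) (hj : 1 ≤ j) (hl : 1 ≤ l) {p q : ℝ} (hp1 : (n1 : ℝ) / d1 ≤ p)
    (hp2 : p < (n2 : ℝ) / d2) (hq : 0 ≤ q) (hs : ⌊(j : ℝ) * p⌋₊ = ⌊(j : ℝ) * q⌋₊) (hqp : q ≤ p) :
    ⌊(l : ℝ) * p⌋₊ = ⌊(l : ℝ) * q⌋₊ := by
  simp only [okL, Bool.and_eq_true, Nat.ble_eq] at h
  obtain ⟨⟨h1, h2⟩, h3⟩ := h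
  have hj' : (0 : ℝ) < j := by exact_mod_cast hj
  have hl' : (0 : ℝ) < l := by exact_mod_cast hl
  obtain ⟨a1, a2⟩ := floor_of hd1 hd2 h1 hp1 hp2 hj
  obtain ⟨b1, b2⟩ := floor_of hd1 hd2 h2 hp1 hp2 hl
  have hp0 : 0 ≤ p := hq.trans hqp
  have e1 : ⌊(j : ℝ) * p⌋₊ = j * n1 / d1 := by
    rw [Nat.floor_eq_iff (by positivity)]; exact ⟨a1, a2⟩
  rw [e1] at hs
  have e2 := (Nat.floor_eq_iff (by positivity)).1 hs.symm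
  have e3 : ⌊(l : ℝ) * p⌋₊ = l * n1 / d1 := by
    rw [Nat.floor_eq_iff (by positivity)]; exact ⟨b1, b2⟩
  rw [e3]
  symm
  rw [Nat.floor_eq_iff (by positivity)]
  refine ⟨?_, ?_⟩
  · have h3' : ((l * n1 / d1 : ℕ) : ℝ) * j ≤ ((j * n1 / d1 : ℕ) : ℝ) * l := by exact_mod_cast h3
    have h4 : ((j * n1 / d1 : ℕ) : ℝ) * l ≤ (j * q) * l := mul_le_mul_of_nonneg_right e2.1 hl'.le
    have h5 : ((l * n1 / d1 : ℕ) : ℝ) * j ≤ (l * q) * j := by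
      calc _ ≤ _ := h3'
        _ ≤ _ := h4
        _ = _ := by ring
    exact le_of_mul_le_mul_right h5 hj'
  · exact (mul_le_mul_of_nonneg_left hqp hl'.le).trans_lt b2

theorem okR_spec {j l n1 d1 n2 d2 : ℕ} (h : okR j l n1 d1 n2 d2 = true) (hd1 : 0 < d1)
    (hd2 : 0 < d2) (hj : 1 ≤ j) (hl : 1 ≤ l) {p q : ℝ} (hp1 : (n1 : ℝ) / d1 ≤ p)
    (hp2 : p < (n2 : ℝ) / d2) (hs : ⌊(j : ℝ) * p⌋₊ = ⌊(j : ℝ) * q⌋₊) (hqp : p ≤ q) :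
    ⌊(l : ℝ) * p⌋₊ = ⌊(l : ℝ) * q⌋₊ := by
  simp only [okR, Bool.and_eq_true, Nat.ble_eq] at h
  obtain ⟨⟨h1, h2⟩, h3⟩ := h
  have hj' : (0 : ℝ) < j := by exact_mod_cast hj
  have hl' : (0 : ℝ) < l := by exact_mod_cast hl
  obtain ⟨a1, a2⟩ := floor_of hd1 hd2 h1 hp1 hp2 hj
  obtain ⟨b1, b2⟩ := floor_of hd1 hd2 h2 hp1 hp2 hl
  have hp0 : 0 ≤ p := le_trans (by positivity) hp1
  have hq : 0 ≤ q := hp0.trans hqp
  have e1 : ⌊(j : ℝ) * p⌋₊ = j * n1 / d1 := by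
    rw [Nat.floor_eq_iff (by positivity)]; exact ⟨a1, a2⟩
  rw [e1] at hs
  have e2 := (Nat.floor_eq_iff (by positivity)).1 hs.symm
  have e3 : ⌊(l : ℝ) * p⌋₊ = l * n1 / d1 := by
    rw [Nat.floor_eq_iff (by positivity)]; exact ⟨b1, b2⟩
  rw [e3]
  symm
  rw [Nat.floor_eq_iff (by positivity)]
  refine ⟨b1.trans (mul_le_mul_of_nonneg_left hqp hl'.le), ?_⟩
  have h3' : (((j * n1 / d1 : ℕ) : ℝ) + 1) * l ≤ (((l * n1 / d1 : ℕ) : ℝ) + 1) * j := by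
    exact_mod_cast h3
  have h4 : (j * q) * l < (((j * n1 / d1 : ℕ) : ℝ) + 1) * l := mul_lt_mul_of_pos_right e2.2 hl'
  have h5 : (l * q) * j < (((l * n1 / d1 : ℕ) : ℝ) + 1) * j := by
    calc (l * q) * j = (j * q) * l := by ring
      _ < _ := h4
      _ ≤ _ := h3'
  exact lt_of_mul_lt_mul_right h5 hj'.le

/-- chain check -/
def chain (K k1 n1 d1 n2 d2 m1 e1 m2 e2 : ℕ) : ℕ → List (ℕ × ℕ × ℕ × ℕ × ℕ) → Bool
  | cur, [] => Nat.ble k1 cur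
  | cur, (j, l1, l2, l3, l4) :: t =>
    Nat.ble 1 j && Nat.ble j cur && Nat.ble l1 K && Nat.ble l2 K && Nat.ble l3 K && Nat.ble l4 K &&
    (okL j l1 n1 d1 n2 d2 && okL j l1 m1 e1 m2 e2) &&
    (okL j l2 n1 d1 n2 d2 && okR j l2 m1 e1 m2 e2) &&
    (okR j l3 n1 d1 n2 d2 && okL j l3 m1 e1 m2 e2) &&
    (okR j l4 n1 d1 n2 d2 && okR j l4 m1 e1 m2 e2) &&
    chain K k1 n1 d1 n2 d2 m1 e1 m2 e2 (min (min l1 l2) (min l3 l4)) t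

theorem chain_spec {K k1 n1 d1 n2 d2 m1 e1 m2 e2 : ℕ} (hd1 : 0 < d1) (hd2 : 0 < d2) (he1 : 0 < e1)
    (he2 : 0 < e2) (l : List (ℕ × ℕ × ℕ × ℕ × ℕ)) : ∀ cur : ℕ,
    chain K k1 n1 d1 n2 d2 m1 e1 m2 e2 cur l = true → ∀ p : ℝ × ℝ,
    (n1 : ℝ) / d1 ≤ p.1 → p.1 < (n2 : ℝ) / d2 → (m1 : ℝ) / e1 ≤ p.2 → p.2 < (m2 : ℝ) / e2 →
    ∀ k, cur ≤ k → k < k1 → Blocked K k p := by
  induction l with
  | nil =>
    intro cur h p _ _ _ _ k hk1 hk2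
    simp only [chain, Nat.ble_eq] at h
    omega
  | cons a t ih =>
    obtain ⟨j, l1, l2, l3, l4⟩ := a
    intro cur h p hp1 hp2 hp3 hp4 k hk1 hk2
    simp only [chain, Bool.and_eq_true, Nat.ble_eq] at h
    obtain ⟨⟨⟨⟨⟨⟨⟨⟨⟨⟨hj, hjc⟩, hl1⟩, hl2⟩, hl3⟩, hl4⟩, ⟨a1, b1⟩⟩, ⟨a2, b2⟩⟩, ⟨a3, b3⟩⟩, ⟨a4, b4⟩⟩, hc⟩ := h
    rcases Nat.lt_or_ge k (min (min l1 l2) (min l3 l4)) with hlt | hge
    · simp only [lt_min_iff] at hlt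
      obtain ⟨⟨g1, g2⟩, ⟨g3, g4⟩⟩ := hlt
      refine ⟨j, hj, by omega, fun q hq1 hq2 hs => ?_⟩
      rcases le_total q.1 p.1 with hx | hx <;> rcases le_total q.2 p.2 with hy | hy
      · exact ⟨l1, by omega, hl1, okL_spec a1 hd1 hd2 hj (by omega) hp1 hp2 hq1 hs.1 hx,
          okL_spec b1 he1 he2 hj (by omega) hp3 hp4 hq2 hs.2 hy⟩
      · exact ⟨l2, by omega, hl2, okL_spec a2 hd1 hd2 hj (by omega) hp1 hp2 hq1 hs.1 hx,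
          okR_spec b2 he1 he2 hj (by omega) hp3 hp4 hs.2 hy⟩
      · exact ⟨l3, by omega, hl3, okR_spec a3 hd1 hd2 hj (by omega) hp1 hp2 hs.1 hx,
          okL_spec b3 he1 he2 hj (by omega) hp3 hp4 hq2 hs.2 hy⟩
      · exact ⟨l4, by omega, hl4, okR_spec a4 hd1 hd2 hj (by omega) hp1 hp2 hs.1 hx,
          okR_spec b4 he1 he2 hj (by omega) hp3 hp4 hs.2 hy⟩
    · exact ih _ hc p hp1 hp2 hp3 hp4 k hge hk2

/-- tree check -/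
def check (K k0 k1 : ℕ) : Cert → ℕ → ℕ → ℕ → ℕ → ℕ → ℕ → ℕ → ℕ → Bool
  | .leaf l, n1, d1, n2, d2, m1, e1, m2, e2 => chain K k1 n1 d1 n2 d2 m1 e1 m2 e2 k0 l
  | .sx n d a b, n1, d1, n2, d2, m1, e1, m2, e2 =>
    Nat.ble 1 d && check K k0 k1 a n1 d1 n d m1 e1 m2 e2 && check K k0 k1 b n d n2 d2 m1 e1 m2 e2
  | .sy n d a b, n1, d1, n2, d2, m1, e1, m2, e2 =>
    Nat.ble 1 d && check K k0 k1 a n1 d1 n2 d2 m1 e1 n d && check K k0 k1 b n1 d1 n2 d2 n d m2 e2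

theorem check_spec {K k0 k1 : ℕ} (c : Cert) : ∀ n1 d1 n2 d2 m1 e1 m2 e2 : ℕ,
    0 < d1 → 0 < d2 → 0 < e1 → 0 < e2 →
    check K k0 k1 c n1 d1 n2 d2 m1 e1 m2 e2 = true → ∀ p : ℝ × ℝ,
    (n1 : ℝ) / d1 ≤ p.1 → p.1 < (n2 : ℝ) / d2 → (m1 : ℝ) / e1 ≤ p.2 → p.2 < (m2 : ℝ) / e2 →
    ∀ k, k0 ≤ k → k < k1 → Blocked K k p := by
  induction c with
  | leaf l =>
    intro n1 d1 n2 d2 m1 e1 m2 e2 hd1 hd2 he1 he2 h
    exact chain_spec hd1 hd2 he1 he2 l k0 h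
  | sx n d a b iha ihb =>
    intro n1 d1 n2 d2 m1 e1 m2 e2 hd1 hd2 he1 he2 h p hp1 hp2 hp3 hp4
    simp only [check, Bool.and_eq_true, Nat.ble_eq] at h
    rcases lt_or_ge p.1 ((n : ℝ) / d) with hlt | hge
    · exact iha _ _ _ _ _ _ _ _ hd1 h.1.1 he1 he2 h.1.2 p hp1 hlt hp3 hp4
    · exact ihb _ _ _ _ _ _ _ _ h.1.1 hd2 he1 he2 h.2 p hge hp2 hp3 hp4
  | sy n d a b iha ihb =>
    intro n1 d1 n2 d2 m1 e1 m2 e2 hd1 hd2 he1 he2 h p hp1 hp2 hp3 hp4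
    simp only [check, Bool.and_eq_true, Nat.ble_eq] at h
    rcases lt_or_ge p.2 ((n : ℝ) / d) with hlt | hge
    · exact iha _ _ _ _ _ _ _ _ hd1 hd2 he1 h.1.1 h.1.2 p hp1 hp2 hp3 hlt
    · exact ihb _ _ _ _ _ _ _ _ hd1 hd2 h.1.1 he2 h.2 p hp1 hp2 hge hp4

/-- counting: `a` cells of order `k1` inside `a-1` cells of order `k0` -/
theorem no_good {K k0 k1 a i h c g : ℕ} (hk0 : 1 ≤ k0) (h01 : k0 ≤ k1) (h1K : k1 ≤ K)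
    (hi : i + a ≤ k1) (hh : h < k1)
    (hx1 : c * k1 ≤ i * k0) (hx2 : (i + a) * k0 ≤ (c + (a - 1)) * k1) (ha : 1 ≤ a)
    (hy1 : g * k1 ≤ h * k0) (hy2 : (h + 1) * k0 ≤ (g + 1) * k1)
    (hbl : ∀ p : ℝ × ℝ, (i : ℝ) / k1 ≤ p.1 → p.1 < ((i + a : ℕ) : ℝ) / k1 → (h : ℝ) / k1 ≤ p.2 →
      p.2 < ((h + 1 : ℕ) : ℝ) / k1 → ∀ k, k0 ≤ k → k < k1 → Blocked K k p) :
    ¬ ∃ x, KGood K x := by
  rintro ⟨x, hx⟩
  have hk1 : 1 ≤ k1 := hk0.trans h01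
  have hk0' : (0 : ℝ) < k0 := by exact_mod_cast hk0
  have hk1' : (0 : ℝ) < k1 := by exact_mod_cast hk1
  have h1 : ∀ t : Fin a, ∃ n : Fin (K ^ 2), n.1 < k1 ^ 2 ∧ ⌊(k1 : ℝ) * (x n).1⌋₊ = i + t.1 ∧
      ⌊(k1 : ℝ) * (x n).2⌋₊ = h := fun t => hx.ex hk1 h1K (by omega) hh
  choose n hn1 hn2 hn3 using h1
  have hpos : ∀ t : Fin a, ((i + t.1 : ℕ) : ℝ) ≤ k1 * (x (n t)).1 ∧
      (k1 : ℝ) * (x (n t)).1 < ((i + t.1 : ℕ) : ℝ) + 1 ∧ (h : ℝ) ≤ k1 * (x (n t)).2 ∧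
      (k1 : ℝ) * (x (n t)).2 < (h : ℝ) + 1 := by
    intro t
    have hQ := hx.1 (n t)
    have e1 := (Nat.floor_eq_iff (mul_nonneg hk1'.le hQ.1)).1 (hn2 t)
    have e2 := (Nat.floor_eq_iff (mul_nonneg hk1'.le hQ.2.2.1)).1 (hn3 t)
    exact ⟨e1.1, e1.2, e2.1, e2.2⟩
  have hlow : ∀ t : Fin a, (n t).1 < k0 ^ 2 := by
    intro t
    by_contra hcon
    push Not at hcon
    set k := Nat.sqrt (n t).1 with hk
    have hs1 : k ^ 2 ≤ (n t).1 := Nat.sqrt_le' _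
    have hs2 : (n t).1 < (k + 1) ^ 2 := Nat.lt_succ_sqrt' _
    have hkk0 : k0 ≤ k := by
      rw [hk, Nat.le_sqrt']
      exact hcon
    have hkk1 : k < k1 := by
      by_contra h'
      push Not at h'
      have := Nat.pow_le_pow_left h' 2
      have := hn1 t
      omega
    refine hx.not_blocked hs1 hs2 (by omega) (hbl _ ?_ ?_ ?_ ?_ k hkk0 hkk1)
    · rw [div_le_iff₀ hk1']
      have := (hpos t).1
      have h2 : (i : ℝ) ≤ ((i + t.1 : ℕ) : ℝ) := by exact_mod_cast Nat.le_add_right _ _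
      linarith
    · rw [lt_div_iff₀ hk1']
      have := (hpos t).2.1
      have h2 : ((i + t.1 : ℕ) : ℝ) + 1 ≤ ((i + a : ℕ) : ℝ) := by
        have : i + t.1 + 1 ≤ i + a := by omega
        exact_mod_cast this
      linarith
    · rw [div_le_iff₀ hk1']
      have := (hpos t).2.2.1
      linarith
    · rw [lt_div_iff₀ hk1']
      have := (hpos t).2.2.2
      push_cast
      linarith
  -- cells of order k0
  have hcol : ∀ t : Fin a, c ≤ ⌊(k0 : ℝ) * (x (n t)).1⌋₊ ∧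
      ⌊(k0 : ℝ) * (x (n t)).1⌋₊ < c + (a - 1) := by
    intro t
    have hQ := hx.1 (n t)
    constructor
    · apply Nat.le_floor
      have e1 : (c : ℝ) * k1 ≤ i * k0 := by exact_mod_cast hx1
      have e2 := (hpos t).1
      have h2 : (i : ℝ) ≤ ((i + t.1 : ℕ) : ℝ) := by exact_mod_cast Nat.le_add_right _ _
      have e3 : (i : ℝ) * k0 ≤ (k1 * (x (n t)).1) * k0 :=
        mul_le_mul_of_nonneg_right (by linarith) hk0'.le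
      have e4 : (c : ℝ) * k1 ≤ (k0 * (x (n t)).1) * k1 := by
        calc _ ≤ _ := e1
          _ ≤ _ := e3
          _ = _ := by ring
      exact le_of_mul_le_mul_right e4 hk1'
    · rw [Nat.floor_lt (mul_nonneg hk0'.le hQ.1)]
      have e1 : ((i + a : ℕ) : ℝ) * k0 ≤ ((c + (a - 1) : ℕ) : ℝ) * k1 := by exact_mod_cast hx2
      have e2 := (hpos t).2.1
      have h2 : ((i + t.1 : ℕ) : ℝ) + 1 ≤ ((i + a : ℕ) : ℝ) := by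
        have : i + t.1 + 1 ≤ i + a := by omega
        exact_mod_cast this
      have e3 : (k1 * (x (n t)).1) * k0 < ((i + a : ℕ) : ℝ) * k0 :=
        mul_lt_mul_of_pos_right (by linarith) hk0'
      have e4 : (k0 * (x (n t)).1) * k1 < ((c + (a - 1) : ℕ) : ℝ) * k1 := by
        calc (k0 * (x (n t)).1) * k1 = (k1 * (x (n t)).1) * k0 := by ring
          _ < _ := e3
          _ ≤ _ := e1
      exact lt_of_mul_lt_mul_right e4 hk1'.le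
  have hrow : ∀ t : Fin a, ⌊(k0 : ℝ) * (x (n t)).2⌋₊ = g := by
    intro t
    have hQ := hx.1 (n t)
    rw [Nat.floor_eq_iff (mul_nonneg hk0'.le hQ.2.2.1)]
    constructor
    · have e1 : (g : ℝ) * k1 ≤ h * k0 := by exact_mod_cast hy1
      have e2 := (hpos t).2.2.1
      have e3 : (h : ℝ) * k0 ≤ (k1 * (x (n t)).2) * k0 := mul_le_mul_of_nonneg_right e2 hk0'.le
      have e4 : (g : ℝ) * k1 ≤ (k0 * (x (n t)).2) * k1 := by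
        calc _ ≤ _ := e1
          _ ≤ _ := e3
          _ = _ := by ring
      exact le_of_mul_le_mul_right e4 hk1'
    · have e1 : ((h : ℝ) + 1) * k0 ≤ ((g : ℝ) + 1) * k1 := by exact_mod_cast hy2
      have e2 := (hpos t).2.2.2
      have e3 : (k1 * (x (n t)).2) * k0 < ((h : ℝ) + 1) * k0 := mul_lt_mul_of_pos_right e2 hk0'
      have e4 : (k0 * (x (n t)).2) * k1 < ((g : ℝ) + 1) * k1 := by
        calc (k0 * (x (n t)).2) * k1 = (k1 * (x (n t)).2) * k0 := by ring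
          _ < _ := e3
          _ ≤ _ := e1
      exact lt_of_mul_lt_mul_right e4 hk1'.le
  -- pigeonhole
  have hmaps : ∀ t ∈ (Finset.univ : Finset (Fin a)), ⌊(k0 : ℝ) * (x (n t)).1⌋₊ ∈
      Finset.Ico c (c + (a - 1)) := fun t _ => Finset.mem_Ico.2 (hcol t)
  obtain ⟨t, _, t', _, hne, heq⟩ := Finset.exists_ne_map_eq_of_card_lt_of_maps_to (by
    rw [Nat.card_Ico, Finset.card_univ, Fintype.card_fin]; omega) hmaps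
  have hnn := hx.inj hk0 (by omega) (hlow t) (hlow t') ⟨heq, by rw [hrow t, hrow t']⟩
  apply hne
  have e1 := hn2 t
  rw [hnn, hn2 t'] at e1
  exact Fin.ext (by omega)

end Pool.Agent.R145.Nest
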