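import Mathlib
import Pool.Agent.R145.Nest.Basic

/-!
Data: a certificate for the upper bound and a long good sequence.
-/

namespace Pool.Agent.R145.Nest

/-- certificate: points of the window `[24/84, 28/84) × [40/84, 41/84)` are blocked -/
def cert : Cert :=
  .sx 3 10 (.sx 5 17 (.sy 12 25 (.sx 7 24 (.sx 11 38 (.sy 11 23 (.sx 15 52 (.sx 19 66 (.sx 23 80
  (.sy 21 44 (.leaf [(58, 69, 80, 71, 95), (68, 90, 80, 88, 84), (75, 90, 93, 88, 95)]) (.leaf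
  [(58, 69, 80, 71, 95), (68, 83, 86, 85, 88), (78, 96, 86, 91, 88)])) (.leaf [(58, 69, 66, 71,
  95), (64, 96, 82, 94, 84), (81, 96, 93, 94, 91)])) (.leaf [(60, 75, 93, 73, 80), (64, 96, 82,
  94, 84), (81, 96, 93, 94, 91)])) (.leaf [(60, 75, 93, 73, 80), (64, 96, 82, 94, 84), (81, 96,
  93, 94, 91)])) (.leaf [(57, 93, 69, 77, 67), (64, 79, 86, 77, 84), (68, 79, 86, 85, 88), (78,
  93, 86, 91, 88)])) (.sy 11 23 (.leaf [(60, 75, 82, 73, 80), (64, 96, 82, 94, 84), (81, 96,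
  89, 94, 91)]) (.leaf [(57, 75, 65, 87, 67), (64, 75, 82, 77, 90), (74, 89, 92, 87, 90)])))
  (.sy 11 23 (.sx 12 41 (.leaf [(60, 75, 82, 73, 93), (70, 92, 84, 96, 80), (74, 92, 82, 96,
  84), (81, 92, 85, 96, 93)]) (.sy 21 44 (.leaf [(60, 71, 78, 90, 93), (70, 88, 84, 96, 82),
  (77, 88, 95, 90, 93)]) (.leaf [(60, 71, 78, 73, 93), (70, 85, 88, 96, 86)]))) (.leaf [(63,
  95, 67, 79, 69), (66, 81, 88, 79, 72), (70, 85, 88, 83, 90), (80, 95, 88, 93, 90)]))) (.sx 7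
  24 (.sy 14 29 (.sx 11 38 (.sx 15 52 (.sy 13 27 (.leaf [(61, 83, 69, 91, 71), (68, 83, 90, 85,
  88), (82, 93, 90, 95, 92)]) (.leaf [(61, 76, 79, 91, 81), (71, 93, 79, 91, 81), (78, 93, 96,
  91, 88)])) (.sy 13 27 (.sy 25 52 (.leaf [(57, 93, 75, 87, 73), (68, 79, 86, 85, 94), (78, 93,
  96, 91, 94)]) (.leaf [(57, 93, 75, 87, 77), (74, 89, 96, 87, 94)])) (.leaf [(57, 93, 79, 87,
  77), (74, 89, 96, 87, 94)]))) (.sy 13 27 (.leaf [(57, 72, 75, 87, 73), (70, 85, 96, 83, 90),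
  (78, 89, 96, 91, 94)]) (.leaf [(57, 72, 75, 87, 77), (67, 89, 75, 87, 77), (74, 89, 96, 87,
  94)]))) (.sx 11 38 (.sy 16 33 (.sx 15 52 (.sx 19 66 (.sx 23 80 (.sy 15 31 (.leaf [(61, 80,
  83, 74, 81), (71, 93, 83, 84, 81), (75, 93, 83, 95, 85), (82, 93, 90, 95, 92)]) (.leaf [(61,
  80, 83, 74, 91), (71, 90, 93, 84, 91)])) (.leaf [(61, 76, 83, 80, 87), (71, 90, 83, 94, 87),
  (81, 96, 85, 94, 87)])) (.leaf [(61, 76, 83, 80, 87), (71, 90, 83, 94, 87), (81, 96, 85, 94,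
  87)])) (.sy 15 31 (.sy 29 60 (.leaf [(61, 76, 79, 91, 87), (67, 93, 85, 80, 87), (78, 93, 96,
  91, 94)]) (.leaf [(61, 76, 79, 80, 87), (71, 93, 89, 94, 87)])) (.leaf [(61, 76, 79, 80, 91),
  (71, 86, 93, 94, 91)]))) (.sx 15 52 (.sy 18 37 (.leaf [(61, 76, 83, 74, 91), (71, 90, 93, 84,
  91)]) (.leaf [(54, 90, 72, 84, 74), (71, 90, 93, 84, 91)])) (.sy 18 37 (.leaf [(61, 76, 79,
  80, 91), (71, 86, 93, 94, 91)]) (.leaf [(50, 86, 72, 73, 70), (64, 96, 72, 94, 74), (71, 86,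
  93, 94, 91)])))) (.sy 16 33 (.leaf [(57, 72, 75, 76, 87), (67, 82, 85, 80, 87), (77, 96, 85,
  90, 87)]) (.sy 18 37 (.sx 9 31 (.sy 17 35 (.leaf [(57, 72, 93, 76, 87), (71, 86, 93, 94,
  91)]) (.leaf [(50, 86, 68, 90, 70), (67, 86, 93, 80, 87), (77, 96, 95, 90, 87)])) (.leaf
  [(63, 84, 95, 76, 69), (67, 82, 89, 80, 93), (77, 96, 95, 90, 93)])) (.sx 9 31 (.leaf [(50,
  86, 72, 90, 70), (64, 96, 72, 94, 74), (71, 86, 93, 94, 91)]) (.sy 19 39 (.leaf [(50, 75, 72,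
  90, 70), (67, 82, 89, 80, 93), (77, 96, 95, 90, 93)]) (.sx 16 55 (.sy 20 41 (.leaf [(60, 96,
  78, 90, 76), (71, 82, 89, 94, 93), (77, 96, 95, 90, 93)]) (.leaf [(60, 96, 82, 90, 80), (77,
  96, 95, 90, 93)])) (.sy 20 41 (.leaf [(60, 96, 78, 90, 76), (67, 82, 89, 86, 93), (77, 96,
  95, 90, 93)]) (.leaf [(60, 96, 82, 90, 80), (77, 96, 95, 90, 93)]))))))))) (.sy 14 29 (.sy 13
  27 (.leaf [(63, 95, 71, 76, 69), (67, 85, 71, 93, 73), (70, 85, 88, 83, 96), (80, 95, 94, 93,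
  96)]) (.sx 12 41 (.sy 27 56 (.leaf [(63, 95, 81, 76, 79), (74, 85, 92, 87, 96)]) (.leaf [(63,
  95, 81, 76, 79), (73, 95, 81, 96, 79), (77, 95, 81, 96, 83), (80, 95, 94, 93, 96)])) (.leaf
  [(63, 95, 81, 89, 79), (76, 95, 94, 89, 82), (80, 95, 94, 93, 96)]))) (.sy 16 33 (.leaf [(63,
  84, 85, 76, 79), (73, 94, 87, 96, 79), (77, 88, 85, 96, 87)]) (.sy 18 37 (.leaf [(63, 84, 95,
  76, 79), (73, 94, 95, 96, 79), (77, 88, 95, 96, 93)]) (.sx 12 41 (.sy 19 39 (.leaf [(56, 92,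
  74, 79, 72), (67, 82, 85, 86, 93), (77, 92, 95, 96, 93)]) (.leaf [(60, 92, 78, 96, 76), (73,
  94, 95, 96, 79), (77, 92, 95, 96, 93)])) (.sy 19 39 (.leaf [(63, 84, 95, 82, 89), (73, 94,
  95, 96, 89)]) (.leaf [(60, 85, 78, 96, 76), (73, 94, 95, 96, 89)])))))))) (.sy 12 25 (.sx 8
  27 (.sy 11 23 (.leaf [(62, 77, 93, 75, 68), (66, 94, 84, 92, 82), (79, 94, 93, 92, 85)])
  (.leaf [(62, 77, 93, 75, 68), (66, 81, 84, 79, 92), (76, 91, 90, 89, 92)])) (.sy 11 23 (.sx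
  11 37 (.leaf [(62, 77, 93, 75, 78), (66, 94, 84, 92, 82), (79, 94, 93, 92, 95)]) (.sx 14 47
  (.leaf [(62, 77, 93, 75, 78), (66, 94, 80, 92, 82), (79, 94, 93, 92, 95)]) (.sx 20 67 (.sy 21
  44 (.leaf [(62, 90, 93, 88, 84)]) (.leaf [(62, 77, 93, 75, 88), (72, 96, 86, 94, 88)])) (.sy
  21 44 (.leaf [(62, 90, 93, 88, 84)]) (.leaf [(62, 73, 93, 75, 88), (72, 96, 86, 94, 88)])))))
  (.sx 11 37 (.leaf [(62, 77, 93, 75, 88), (72, 87, 90, 85, 88)]) (.sx 14 47 (.leaf [(62, 77,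
  93, 75, 88), (72, 87, 90, 85, 88)]) (.sx 20 67 (.leaf [(62, 77, 93, 75, 88), (72, 87, 90, 85,
  88)]) (.sy 23 48 (.leaf [(62, 73, 93, 75, 88), (72, 96, 90, 85, 88)]) (.sx 23 77 (.leaf [(62,
  77, 93, 75, 94), (72, 87, 96, 85, 94)]) (.leaf [(55, 83, 69, 77, 71), (68, 85, 96, 77, 84),
  (72, 83, 96, 85, 94), (82, 93, 96, 95, 94)])))))))) (.sy 14 29 (.sx 8 27 (.sy 13 27 (.leaf
  [(59, 91, 73, 85, 75), (70, 81, 84, 85, 96), (80, 91, 94, 93, 96)]) (.leaf [(63, 91, 81, 89,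
  79), (76, 91, 94, 89, 92)])) (.sx 11 37 (.sy 13 27 (.leaf [(59, 87, 73, 95, 75), (72, 87, 96,
  85, 88)]) (.leaf [(59, 87, 77, 95, 81), (76, 87, 94, 95, 92)])) (.sy 13 27 (.leaf [(59, 70,
  73, 95, 75), (69, 90, 73, 95, 75), (72, 83, 96, 85, 88), (82, 93, 96, 95, 88)]) (.sx 14 47
  (.leaf [(59, 87, 77, 95, 81), (76, 87, 94, 95, 92)]) (.leaf [(59, 70, 73, 95, 81), (65, 93,
  79, 91, 81), (78, 95, 96, 91, 94)]))))) (.sx 8 27 (.sy 16 33 (.leaf [(63, 84, 81, 82, 85),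
  (69, 90, 87, 92, 85)]) (.sy 18 37 (.leaf [(63, 84, 91, 82, 89), (73, 94, 91, 96, 89)]) (.leaf
  [(56, 84, 74, 92, 72), (69, 90, 91, 92, 85)]))) (.sy 16 33 (.sx 11 37 (.leaf [(63, 84, 77,
  82, 85), (69, 90, 87, 92, 85)]) (.sx 14 47 (.leaf [(59, 70, 87, 78, 85), (69, 90, 87, 92,
  85)]) (.sx 20 67 (.leaf [(59, 70, 87, 78, 85), (69, 90, 87, 92, 85)]) (.sy 15 31 (.leaf [(59,
  70, 73, 95, 85), (69, 90, 83, 95, 85), (82, 93, 96, 95, 94)]) (.leaf [(59, 70, 73, 78, 91),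
  (65, 86, 93, 84, 91)]))))) (.sx 11 37 (.sy 18 37 (.leaf [(63, 84, 77, 82, 95), (69, 90, 87,
  92, 95)]) (.leaf [(56, 84, 74, 92, 72), (69, 90, 87, 92, 95)])) (.sy 18 37 (.sx 14 47 (.sy 17
  35 (.leaf [(59, 70, 87, 78, 95), (69, 90, 87, 92, 95)]) (.leaf [(52, 94, 70, 78, 68), (65,
  86, 93, 78, 91), (75, 96, 93, 88, 91)])) (.sx 20 67 (.sy 17 35 (.leaf [(59, 70, 87, 78, 95),
  (69, 90, 87, 92, 95)]) (.leaf [(52, 80, 70, 94, 68), (65, 86, 93, 84, 91)])) (.sy 17 35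
  (.leaf [(59, 70, 73, 78, 95), (65, 86, 93, 84, 91)]) (.leaf [(52, 80, 70, 94, 68), (65, 86,
  93, 84, 91)])))) (.leaf [(52, 73, 70, 71, 74), (69, 90, 83, 92, 95), (79, 90, 93, 92,
  95)])))))))) (.sx 5 16 (.sx 4 13 (.sy 12 25 (.sx 7 23 (.sx 10 33 (.sy 11 23 (.sx 16 53 (.sy
  21 44 (.leaf [(62, 69, 76, 90, 84), (68, 96, 82, 90, 84), (81, 96, 95, 90, 87)]) (.leaf [(62,
  69, 76, 77, 88), (68, 96, 86, 77, 84), (72, 96, 86, 94, 88)])) (.sy 21 44 (.leaf [(58, 69,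
  89, 67, 93), (64, 92, 82, 73, 80), (68, 92, 82, 90, 84), (81, 92, 95, 90, 93)]) (.sx 13 43
  (.leaf [(62, 69, 76, 77, 93), (68, 92, 86, 83, 84), (82, 89, 86, 95, 88)]) (.leaf [(62, 69,
  66, 77, 93), (64, 92, 88, 96, 86)])))) (.sx 16 53 (.sx 22 73 (.sy 23 48 (.leaf [(62, 73, 76,
  77, 90), (72, 96, 86, 87, 90)]) (.leaf [(61, 95, 69, 80, 67), (65, 89, 69, 91, 71), (68, 85,
  96, 77, 90), (72, 79, 96, 87, 94), (78, 95, 96, 91, 94)])) (.sy 23 48 (.leaf [(61, 96, 69,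
  93, 67), (64, 96, 92, 73, 80), (72, 96, 86, 87, 90)]) (.leaf [(61, 95, 69, 93, 67), (65, 89,
  69, 93, 71), (68, 85, 96, 83, 90), (78, 95, 96, 93, 94)]))) (.sy 23 48 (.leaf [(61, 95, 69,
  93, 67), (64, 79, 92, 73, 80), (68, 85, 92, 83, 90), (78, 95, 92, 93, 90)]) (.leaf [(61, 95,
  69, 93, 67), (65, 89, 69, 93, 71), (68, 85, 92, 83, 90), (78, 95, 92, 93, 94)])))) (.sy 11 23
  (.sy 21 44 (.leaf [(58, 69, 82, 67, 93), (64, 92, 82, 96, 80), (68, 92, 82, 96, 84), (81, 92,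
  95, 96, 93)]) (.sx 17 56 (.sy 32 67 (.leaf [(58, 69, 82, 67, 93), (64, 92, 88, 96, 86)])
  (.leaf [(61, 95, 65, 96, 67), (64, 92, 88, 96, 86)])) (.sy 32 67 (.leaf [(58, 69, 82, 67,
  93), (64, 92, 88, 96, 86)]) (.leaf [(61, 95, 65, 96, 67), (64, 92, 88, 96, 86)])))) (.sy 23
  48 (.leaf [(61, 95, 69, 96, 67), (64, 75, 92, 96, 86), (74, 91, 92, 96, 90)]) (.leaf [(61,
  95, 69, 93, 67), (65, 72, 69, 93, 71), (68, 85, 92, 83, 96), (78, 95, 92, 93, 96)])))) (.sy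
  11 23 (.sx 11 36 (.sy 21 44 (.leaf [(60, 90, 91, 69, 66), (64, 88, 78, 96, 80), (77, 88, 91,
  92, 93)]) (.leaf [(60, 75, 91, 69, 66), (64, 75, 88, 96, 86), (74, 91, 88, 96, 86)])) (.sx 15
  49 (.sy 21 44 (.leaf [(60, 90, 91, 69, 82), (64, 88, 78, 96, 82), (77, 88, 91, 92, 95)])
  (.leaf [(60, 75, 91, 69, 82), (64, 75, 88, 96, 86), (74, 91, 88, 96, 86)])) (.sy 21 44 (.sx
  23 75 (.leaf [(60, 90, 91, 69, 82), (64, 88, 78, 96, 82), (77, 88, 91, 92, 95)]) (.sy 31 65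
  (.sx 27 88 (.leaf [(60, 90, 91, 75, 82), (70, 94, 84, 92, 82), (77, 88, 91, 92, 95)]) (.leaf
  [(60, 90, 91, 88, 82), (79, 94, 93, 88, 85)])) (.leaf [(60, 90, 91, 75, 82), (70, 94, 84, 92,
  82), (80, 94, 84, 96, 86)]))) (.leaf [(60, 71, 91, 69, 82), (64, 71, 78, 96, 86), (70, 94,
  84, 92, 82), (80, 94, 84, 96, 86)])))) (.sx 11 36 (.leaf [(63, 93, 67, 66, 69), (64, 75, 88,
  79, 92), (74, 91, 88, 89, 92)]) (.sx 15 49 (.leaf [(63, 93, 67, 72, 69), (64, 75, 88, 79,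
  92), (74, 91, 88, 89, 92)]) (.sy 23 48 (.sx 23 75 (.leaf [(63, 93, 67, 85, 69), (64, 75, 88,
  96, 92), (74, 91, 88, 96, 92)]) (.leaf [(63, 93, 67, 85, 69), (66, 96, 90, 75, 72), (70, 87,
  90, 85, 92)])) (.sx 23 75 (.leaf [(57, 91, 71, 95, 69), (64, 75, 88, 79, 96), (74, 91, 88,
  89, 96)]) (.leaf [(57, 91, 71, 95, 69), (66, 81, 96, 75, 72), (70, 87, 94, 85, 92)])))))))
  (.sy 14 29 (.sx 7 23 (.sx 10 33 (.sx 16 53 (.sy 13 27 (.sx 22 73 (.sy 25 52 (.leaf [(61, 95,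
  75, 80, 67), (65, 89, 73, 91, 71), (69, 76, 73, 95, 75), (72, 79, 96, 87, 94), (78, 95, 96,
  91, 94)]) (.sx 25 83 (.leaf [(61, 95, 75, 80, 77), (72, 83, 96, 87, 94), (78, 95, 96, 91,
  94)]) (.leaf [(61, 95, 75, 93, 77), (68, 85, 96, 83, 90), (78, 95, 96, 93, 94)]))) (.leaf
  [(61, 95, 75, 93, 73), (68, 85, 96, 83, 90), (78, 95, 96, 93, 94)])) (.leaf [(61, 95, 79, 80,
  77), (65, 89, 79, 91, 81), (78, 95, 96, 91, 94)])) (.sy 13 27 (.leaf [(61, 95, 75, 93, 73),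
  (68, 85, 92, 83, 90), (78, 95, 92, 93, 94)]) (.leaf [(61, 95, 79, 93, 77), (65, 89, 79, 93,
  81), (78, 95, 92, 93, 94)]))) (.sy 13 27 (.leaf [(61, 95, 75, 93, 73), (68, 85, 92, 83, 96),
  (78, 95, 92, 93, 96)]) (.sx 17 56 (.leaf [(61, 95, 79, 93, 77), (75, 82, 79, 96, 81), (78,
  95, 92, 93, 96)]) (.leaf [(61, 95, 75, 93, 77), (74, 91, 92, 89, 96)])))) (.sx 11 36 (.sy 13
  27 (.leaf [(61, 85, 75, 93, 73), (68, 85, 75, 83, 96), (74, 91, 88, 89, 96)]) (.leaf [(57,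
  91, 81, 76, 79), (74, 91, 88, 89, 96)])) (.sy 13 27 (.sx 15 49 (.sy 25 52 (.leaf [(61, 78,
  75, 95, 73), (70, 87, 94, 79, 92), (74, 91, 88, 89, 96)]) (.leaf [(61, 78, 75, 95, 77), (74,
  91, 88, 89, 96)])) (.leaf [(57, 91, 71, 95, 69), (67, 91, 71, 95, 73), (70, 87, 94, 85,
  92)])) (.leaf [(57, 91, 81, 95, 79), (76, 93, 96, 95, 82), (80, 91, 94, 95, 96)])))) (.sx 7
  23 (.sy 16 33 (.leaf [(61, 78, 85, 80, 77), (71, 92, 85, 90, 87)]) (.sx 10 33 (.sy 18 37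
  (.leaf [(61, 78, 95, 80, 77), (71, 92, 95, 90, 87)]) (.leaf [(58, 79, 72, 90, 74), (71, 92,
  95, 90, 87)])) (.sy 18 37 (.leaf [(61, 78, 95, 80, 93), (77, 94, 95, 96, 93)]) (.leaf [(48,
  69, 72, 96, 70), (67, 88, 95, 86, 73), (71, 92, 95, 90, 93)])))) (.sy 16 33 (.sx 11 36 (.leaf
  [(61, 78, 85, 80, 83), (71, 88, 85, 92, 87)]) (.sx 15 49 (.sy 15 31 (.sy 29 60 (.leaf [(57,
  91, 81, 95, 79), (76, 93, 96, 95, 82), (80, 91, 94, 95, 96)]) (.sx 26 85 (.leaf [(61, 78, 85,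
  95, 89), (67, 88, 85, 95, 89)]) (.leaf [(61, 78, 75, 95, 89), (73, 94, 87, 95, 85)]))) (.leaf
  [(61, 78, 75, 80, 93), (67, 88, 91, 86, 89)])) (.leaf [(57, 74, 81, 76, 85), (73, 94, 87, 92,
  85)]))) (.sx 11 36 (.sy 18 37 (.leaf [(61, 78, 85, 80, 93), (77, 94, 91, 96, 93)]) (.leaf
  [(54, 88, 72, 92, 66), (64, 91, 72, 96, 70), (67, 88, 91, 86, 89)])) (.sy 18 37 (.leaf [(57,
  74, 91, 76, 95), (73, 94, 93, 92, 95)]) (.leaf [(60, 94, 74, 69, 72), (67, 84, 91, 86,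
  95)]))))))) (.sy 12 25 (.sx 9 29 (.sy 11 23 (.sx 13 42 (.sy 21 44 (.leaf [(60, 90, 84, 88,
  91)]) (.leaf [(60, 71, 84, 75, 91), (70, 87, 84, 92, 88)])) (.sy 21 44 (.leaf [(60, 90, 80,
  88, 91), (79, 90, 93, 94, 91)]) (.sy 32 67 (.leaf [(60, 90, 80, 75, 91), (66, 96, 86, 94,
  88)]) (.sx 22 71 (.leaf [(60, 71, 80, 75, 91), (66, 96, 86, 94, 88)]) (.leaf [(62, 92, 95,
  71, 68), (66, 96, 86, 94, 88)]))))) (.leaf [(63, 93, 67, 91, 69), (66, 77, 90, 75, 88), (70,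
  87, 90, 85, 92)])) (.sy 11 23 (.sx 14 45 (.sy 21 44 (.leaf [(60, 90, 80, 88, 91), (79, 90,
  93, 94, 91)]) (.leaf [(62, 92, 95, 71, 68), (66, 96, 86, 94, 88)])) (.sy 21 44 (.leaf [(62,
  92, 95, 71, 74), (66, 96, 80, 94, 84), (72, 96, 82, 90, 84), (81, 96, 95, 90, 87)]) (.leaf
  [(62, 92, 95, 71, 74), (66, 96, 86, 94, 88)]))) (.sx 14 45 (.leaf [(63, 93, 67, 91, 69), (66,
  77, 90, 81, 88), (76, 93, 90, 95, 88)]) (.sy 23 48 (.leaf [(63, 83, 67, 91, 69), (66, 96, 86,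
  81, 90), (72, 96, 92, 87, 90)]) (.sx 24 77 (.leaf [(59, 93, 69, 74, 71), (66, 77, 96, 81,
  94), (76, 93, 96, 95, 94)]) (.leaf [(59, 89, 69, 77, 71), (68, 85, 96, 77, 74), (72, 89, 96,
  87, 90)])))))) (.sy 14 29 (.sx 9 29 (.sy 13 27 (.leaf [(63, 93, 73, 91, 75), (70, 87, 90, 85,
  92)]) (.leaf [(63, 93, 77, 91, 75), (73, 93, 77, 95, 79), (76, 93, 96, 95, 88)])) (.leaf
  [(63, 80, 73, 91, 75), (72, 89, 96, 87, 84)])) (.sy 16 33 (.sx 9 29 (.leaf [(63, 80, 87, 78,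
  85), (73, 90, 87, 92, 85)]) (.leaf [(63, 80, 83, 84, 87), (75, 96, 85, 84, 87)])) (.sx 9 29
  (.sy 18 37 (.leaf [(63, 80, 93, 78, 91), (73, 90, 93, 92, 95)]) (.sx 13 42 (.leaf [(60, 90,
  74, 88, 72), (67, 84, 74, 88, 95), (73, 90, 93, 92, 95)]) (.leaf [(60, 90, 74, 94, 72), (69,
  92, 93, 84, 81), (79, 96, 93, 94, 91)]))) (.sy 18 37 (.leaf [(63, 80, 83, 84, 91), (79, 96,
  89, 94, 91)]) (.leaf [(56, 96, 70, 84, 68), (66, 96, 70, 94, 72), (69, 92, 89, 84,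
  87)]))))))) (.sx 7 22 (.sy 12 25 (.sx 6 19 (.sy 11 23 (.leaf [(62, 69, 95, 77, 93), (68, 94,
  82, 77, 80), (72, 79, 82, 96, 84), (78, 95, 82, 96, 84), (81, 94, 95, 96, 93)]) (.sx 11 35
  (.sx 16 51 (.sy 23 48 (.leaf [(62, 73, 95, 77, 93), (72, 89, 92, 96, 90)]) (.leaf [(59, 89,
  69, 93, 71), (68, 85, 94, 77, 80), (72, 89, 92, 87, 96)])) (.sy 23 48 (.leaf [(62, 73, 95,
  77, 93), (72, 89, 92, 96, 90)]) (.leaf [(59, 89, 69, 93, 71), (68, 85, 94, 83, 80), (78, 95,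
  92, 93, 96)]))) (.sy 23 48 (.sx 17 54 (.leaf [(62, 73, 95, 77, 93), (68, 85, 92, 83, 86),
  (78, 95, 92, 96, 90)]) (.sx 23 73 (.leaf [(62, 73, 95, 77, 93), (68, 85, 92, 83, 86), (78,
  95, 92, 96, 90)]) (.leaf [(49, 79, 69, 73, 67), (64, 96, 90, 73, 70), (68, 85, 88, 83, 86),
  (78, 95, 88, 96, 90)]))) (.leaf [(59, 79, 69, 93, 71), (68, 85, 94, 83, 86), (78, 95, 88, 93,
  96)])))) (.sy 11 23 (.sx 13 41 (.leaf [(62, 69, 82, 92, 95), (68, 94, 82, 92, 80), (78, 91,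
  82, 96, 84), (81, 94, 91, 96, 95)]) (.leaf [(62, 69, 72, 92, 95), (64, 96, 84, 79, 82), (74,
  94, 84, 92, 82), (81, 94, 91, 96, 95)])) (.sx 13 41 (.sy 23 48 (.leaf [(55, 91, 69, 73, 67),
  (64, 96, 90, 73, 76), (68, 85, 88, 83, 92), (80, 96, 90, 95, 92)]) (.leaf [(55, 91, 69, 70,
  67), (65, 91, 69, 95, 71), (68, 85, 94, 83, 92), (80, 93, 96, 95, 92)])) (.leaf [(55, 91, 69,
  79, 67), (64, 77, 90, 79, 82), (74, 91, 88, 89, 92)])))) (.sy 14 29 (.sx 6 19 (.sx 11 35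
  (.leaf [(59, 89, 73, 93, 71), (69, 92, 73, 93, 75), (72, 89, 92, 87, 96)]) (.sy 13 27 (.leaf
  [(59, 76, 69, 93, 71), (68, 85, 94, 83, 86), (78, 95, 88, 93, 96)]) (.leaf [(59, 76, 79, 93,
  77), (75, 95, 79, 96, 81), (78, 95, 88, 93, 96)]))) (.sy 13 27 (.leaf [(61, 91, 75, 76, 73),
  (68, 81, 94, 83, 92), (80, 93, 96, 95, 92)]) (.leaf [(61, 91, 81, 76, 73), (71, 94, 81, 95,
  77), (74, 91, 94, 89, 92)]))) (.sx 6 19 (.sy 16 33 (.leaf [(59, 76, 79, 74, 77), (65, 82, 85,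
  80, 77), (75, 82, 85, 96, 87), (81, 94, 85, 96, 87)]) (.sx 11 35 (.sy 18 37 (.leaf [(59, 76,
  89, 74, 93), (69, 92, 89, 90, 93)]) (.leaf [(62, 92, 72, 96, 74), (69, 92, 89, 90, 93)]))
  (.sy 18 37 (.leaf [(59, 76, 79, 74, 93), (71, 94, 95, 86, 83), (81, 94, 95, 96, 93)]) (.leaf
  [(62, 85, 72, 96, 74), (71, 94, 95, 86, 83), (81, 94, 95, 96, 93)])))) (.sy 16 33 (.sx 13 41
  (.leaf [(61, 78, 87, 76, 73), (71, 94, 85, 92, 83), (81, 94, 85, 96, 87)]) (.sy 15 31 (.leaf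
  [(61, 78, 87, 76, 79), (71, 94, 81, 95, 83), (80, 93, 96, 95, 92)]) (.leaf [(61, 78, 91, 76,
  79), (71, 94, 91, 92, 89)]))) (.sy 18 37 (.leaf [(61, 78, 91, 76, 73), (71, 94, 91, 92, 95)])
  (.leaf [(52, 88, 72, 73, 70), (68, 94, 72, 95, 74), (71, 94, 91, 92, 95)])))))) (.sx 10 31
  (.sy 12 25 (.sx 8 25 (.sy 11 23 (.sy 21 44 (.leaf [(58, 71, 87, 67, 82), (64, 96, 84, 88,
  82), (77, 90, 87, 92, 95)]) (.sx 15 47 (.sy 32 67 (.leaf [(58, 71, 87, 67, 88), (64, 96, 84,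
  79, 88), (77, 90, 87, 92, 95)]) (.leaf [(55, 94, 65, 85, 67), (64, 96, 84, 79, 88), (70, 96,
  86, 85, 88)])) (.leaf [(58, 71, 87, 69, 91), (64, 96, 84, 94, 88)]))) (.leaf [(55, 81, 65,
  85, 67), (64, 77, 90, 79, 88), (70, 87, 90, 85, 88)])) (.sy 11 23 (.leaf [(60, 73, 95, 75,
  72), (64, 96, 80, 94, 82), (79, 92, 95, 94, 91)]) (.leaf [(51, 83, 67, 75, 69), (64, 77, 80,
  79, 88), (76, 95, 92, 91, 88)]))) (.sy 14 29 (.sx 8 25 (.sy 13 27 (.leaf [(55, 81, 75, 85,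
  73), (70, 87, 96, 85, 88)]) (.leaf [(61, 87, 81, 76, 79), (74, 87, 84, 89, 92)])) (.sy 13 27
  (.leaf [(57, 95, 73, 72, 75), (70, 83, 96, 85, 94), (80, 93, 96, 95, 94)]) (.leaf [(57, 95,
  77, 72, 75), (67, 93, 77, 91, 79), (76, 95, 96, 91, 94)]))) (.sy 16 33 (.sx 8 25 (.leaf [(61,
  78, 87, 76, 85), (73, 96, 87, 88, 85)]) (.sx 9 28 (.leaf [(61, 74, 87, 76, 85), (73, 96, 87,
  94, 85)]) (.sy 15 31 (.leaf [(63, 95, 83, 84, 81), (80, 93, 96, 95, 94)]) (.leaf [(63, 82,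
  93, 84, 81), (73, 96, 93, 94, 91)])))) (.sx 8 25 (.sy 18 37 (.leaf [(61, 78, 87, 76, 85),
  (73, 96, 93, 88, 85)]) (.leaf [(58, 87, 68, 88, 70), (67, 84, 93, 88, 85)])) (.sy 18 37
  (.leaf [(61, 74, 71, 76, 91), (67, 80, 93, 88, 91), (73, 96, 93, 94, 91)]) (.sx 9 28 (.leaf
  [(54, 96, 74, 75, 72), (67, 84, 93, 88, 91)]) (.leaf [(48, 96, 74, 84, 72), (69, 92, 95, 84,
  81), (73, 96, 93, 94, 91)]))))))) (.sy 12 25 (.sx 14 43 (.sy 11 23 (.leaf [(60, 73, 95, 75,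
  93), (72, 94, 82, 87, 84), (79, 92, 95, 94, 93)]) (.leaf [(57, 95, 67, 93, 69), (66, 79, 92,
  81, 90), (76, 95, 92, 93, 90)])) (.sx 18 55 (.sy 11 23 (.leaf [(60, 73, 76, 75, 93), (72, 94,
  82, 96, 84), (81, 94, 91, 96, 93)]) (.leaf [(57, 76, 67, 93, 69), (66, 79, 88, 81, 90), (78,
  91, 88, 93, 90)])) (.sx 22 67 (.sy 11 23 (.leaf [(60, 73, 76, 75, 95), (72, 94, 82, 96, 84),
  (81, 94, 91, 96, 95)]) (.leaf [(57, 76, 67, 95, 69), (66, 79, 88, 81, 92), (78, 91, 88, 95,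
  92)])) (.sx 25 76 (.sy 11 23 (.sy 21 44 (.sy 31 65 (.sy 41 86 (.sx 23 70 (.leaf [(60, 73, 76,
  90, 95), (66, 88, 82, 96, 84), (81, 94, 91, 96, 95)]) (.leaf [(56, 69, 91, 67, 70), (66, 88,
  82, 96, 84), (81, 94, 91, 96, 95)])) (.sx 23 70 (.leaf [(60, 73, 76, 90, 95), (66, 88, 82,
  96, 86), (81, 94, 91, 96, 95)]) (.leaf [(56, 69, 91, 67, 70), (66, 88, 82, 96, 86), (81, 94,
  91, 96, 95)]))) (.sx 23 70 (.leaf [(60, 73, 76, 90, 95), (66, 88, 82, 96, 86), (81, 94, 91,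
  96, 95)]) (.leaf [(56, 69, 91, 67, 70), (66, 88, 82, 96, 86), (81, 94, 91, 96, 95)]))) (.sy
  32 67 (.sx 23 70 (.leaf [(60, 73, 76, 90, 95), (72, 94, 88, 96, 86)]) (.leaf [(56, 69, 91,
  67, 70), (66, 79, 88, 96, 86), (72, 94, 88, 96, 86)])) (.sy 43 90 (.sx 23 70 (.leaf [(60, 73,
  76, 90, 95), (72, 94, 88, 96, 86)]) (.sx 24 73 (.leaf [(60, 73, 76, 90, 95), (72, 94, 88, 96,
  86)]) (.leaf [(62, 90, 93, 73, 70), (66, 79, 88, 96, 86), (72, 94, 88, 96, 86)]))) (.sx 23 70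
  (.leaf [(60, 73, 76, 75, 95), (72, 94, 88, 96, 90)]) (.sx 24 73 (.leaf [(60, 73, 76, 75, 95),
  (72, 94, 88, 96, 90)]) (.leaf [(62, 75, 93, 73, 70), (66, 79, 88, 96, 90), (72, 94, 88, 96,
  90)])))))) (.sy 23 48 (.sy 34 71 (.sy 45 94 (.sx 23 70 (.leaf [(60, 73, 76, 75, 95), (72, 94,
  88, 96, 92)]) (.leaf [(53, 94, 69, 70, 67), (66, 79, 88, 96, 92), (72, 94, 88, 96, 92)]))
  (.sx 23 70 (.leaf [(60, 73, 76, 75, 95), (72, 85, 94, 96, 92)]) (.leaf [(53, 85, 69, 70, 67),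
  (66, 79, 88, 96, 92), (78, 91, 94, 96, 92)]))) (.sx 23 70 (.leaf [(60, 73, 76, 75, 95), (72,
  85, 94, 96, 92)]) (.leaf [(53, 85, 69, 70, 67), (66, 79, 88, 96, 92), (78, 91, 94, 96,
  92)]))) (.sy 35 73 (.sx 23 70 (.leaf [(60, 73, 76, 75, 96), (72, 85, 94, 89, 96)]) (.leaf
  [(53, 85, 69, 70, 67), (66, 79, 88, 81, 96), (78, 91, 94, 95, 96)])) (.sx 23 70 (.leaf [(57,
  76, 73, 95, 71), (66, 79, 88, 81, 96), (78, 91, 94, 95, 96)]) (.leaf [(53, 85, 69, 70, 67),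
  (66, 79, 88, 81, 96), (78, 91, 94, 95, 96)]))))) (.sx 27 82 (.sy 11 23 (.leaf [(62, 75, 93,
  73, 76), (72, 94, 82, 96, 84), (81, 94, 91, 96, 95)]) (.sy 23 48 (.leaf [(62, 75, 93, 73,
  76), (72, 85, 88, 96, 92)]) (.sy 35 73 (.leaf [(62, 75, 94, 73, 76), (72, 85, 94, 89, 96)])
  (.sx 26 79 (.leaf [(53, 85, 69, 70, 73), (66, 79, 88, 81, 96), (78, 91, 94, 95, 96)]) (.leaf
  [(53, 85, 69, 79, 73), (68, 85, 96, 79, 76), (72, 85, 94, 89, 96)]))))) (.sx 29 88 (.sy 11 23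
  (.sy 21 44 (.leaf [(62, 90, 93, 73, 82), (68, 96, 84, 79, 82), (75, 88, 91, 90, 95)]) (.leaf
  [(62, 75, 93, 73, 82), (72, 94, 88, 96, 86)])) (.sy 23 48 (.leaf [(62, 75, 93, 73, 82), (68,
  96, 90, 79, 82), (78, 91, 88, 96, 92)]) (.sy 35 73 (.leaf [(62, 75, 94, 73, 82), (68, 81, 96,
  79, 82), (78, 91, 94, 95, 96)]) (.leaf [(53, 75, 69, 79, 73), (68, 81, 96, 79, 82), (78, 91,
  94, 95, 96)])))) (.sy 11 23 (.sx 30 91 (.leaf [(62, 75, 93, 73, 82), (68, 96, 84, 85, 82),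
  (81, 94, 91, 96, 95)]) (.sx 31 94 (.sy 21 44 (.leaf [(62, 90, 93, 88, 82), (77, 90, 93, 88,
  91)]) (.leaf [(62, 75, 93, 73, 88), (68, 96, 84, 85, 88)])) (.sy 21 44 (.leaf [(62, 90, 93,
  88, 82), (77, 90, 93, 88, 91)]) (.leaf [(62, 75, 93, 73, 88), (68, 96, 84, 94, 88)])))) (.sx
  30 91 (.sy 23 48 (.leaf [(62, 75, 93, 73, 88), (68, 96, 90, 85, 88)]) (.sy 35 73 (.leaf [(62,
  75, 94, 73, 88), (68, 81, 96, 85, 88), (78, 91, 94, 95, 96)]) (.leaf [(53, 75, 69, 85, 73),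
  (68, 81, 96, 85, 88), (78, 91, 94, 95, 96)]))) (.sx 31 94 (.sy 23 48 (.leaf [(62, 75, 93, 73,
  88), (68, 96, 90, 85, 88)]) (.sy 35 73 (.leaf [(62, 75, 94, 73, 88), (68, 81, 96, 85, 88),
  (80, 93, 96, 91, 88)]) (.leaf [(53, 75, 69, 85, 73), (68, 81, 96, 85, 88), (80, 93, 96, 91,
  88)]))) (.sy 23 48 (.leaf [(62, 75, 93, 73, 88), (68, 96, 90, 85, 88)]) (.sy 35 73 (.leaf
  [(62, 75, 93, 73, 94), (68, 81, 96, 85, 94), (80, 93, 96, 91, 94)]) (.leaf [(53, 75, 69, 85,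
  73), (68, 81, 96, 85, 94), (80, 93, 96, 91, 94)])))))))))))) (.sx 14 43 (.sy 14 29 (.leaf
  [(57, 95, 73, 93, 75), (72, 89, 94, 87, 90)]) (.sy 16 33 (.leaf [(63, 82, 79, 84, 87), (69,
  92, 85, 90, 87)]) (.sy 18 37 (.leaf [(63, 82, 95, 84, 93), (79, 92, 95, 94, 93)]) (.leaf
  [(54, 86, 70, 90, 72), (69, 92, 95, 90, 93)])))) (.sy 14 29 (.sx 18 55 (.sy 13 27 (.leaf
  [(57, 76, 73, 93, 75), (72, 85, 94, 87, 96)]) (.leaf [(63, 82, 79, 93, 81), (78, 91, 94, 93,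
  96)])) (.sx 22 67 (.sy 13 27 (.leaf [(57, 76, 73, 95, 75), (72, 85, 94, 89, 96)]) (.leaf
  [(63, 82, 79, 95, 81), (78, 91, 94, 95, 96)])) (.sx 25 76 (.sy 13 27 (.sy 25 52 (.sy 37 77
  (.sx 23 70 (.leaf [(57, 76, 73, 95, 75), (72, 85, 94, 89, 96)]) (.leaf [(53, 85, 75, 70, 67),
  (66, 79, 88, 81, 96), (78, 91, 94, 95, 96)])) (.sx 23 70 (.leaf [(57, 76, 73, 95, 77), (72,
  85, 94, 89, 96)]) (.leaf [(53, 85, 75, 70, 67), (66, 79, 88, 81, 96), (78, 91, 94, 95,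
  96)]))) (.sy 38 79 (.sx 23 70 (.leaf [(57, 76, 73, 95, 77), (72, 85, 94, 89, 96)]) (.leaf
  [(53, 85, 75, 70, 67), (66, 79, 88, 81, 96), (78, 91, 94, 95, 96)])) (.leaf [(63, 82, 79, 95,
  77), (72, 85, 94, 89, 96)]))) (.leaf [(63, 82, 79, 95, 81), (78, 91, 94, 95, 96)])) (.sx 27
  82 (.sy 13 27 (.leaf [(59, 91, 75, 76, 73), (72, 85, 94, 89, 96)]) (.sy 27 56 (.leaf [(59,
  91, 81, 76, 73), (72, 85, 94, 89, 96)]) (.sy 41 85 (.leaf [(59, 91, 81, 76, 73), (72, 85, 94,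
  89, 96)]) (.leaf [(59, 91, 85, 76, 73), (69, 91, 85, 95, 83), (78, 91, 94, 95, 96)])))) (.sx
  29 88 (.sy 13 27 (.sy 25 52 (.leaf [(59, 91, 75, 79, 73), (68, 81, 96, 79, 82), (78, 91, 94,
  95, 96)]) (.sy 38 79 (.leaf [(59, 91, 75, 79, 73), (68, 81, 96, 79, 82), (78, 91, 94, 95,
  96)]) (.sx 28 85 (.leaf [(59, 91, 75, 76, 79), (72, 85, 94, 89, 96)]) (.leaf [(59, 91, 75,
  85, 79), (74, 91, 96, 85, 82), (78, 91, 94, 95, 96)])))) (.leaf [(59, 91, 81, 76, 79), (65,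
  93, 81, 82, 79), (78, 91, 94, 95, 96)])) (.sx 30 91 (.sy 13 27 (.leaf [(59, 91, 75, 85, 73),
  (68, 81, 96, 85, 88), (78, 91, 94, 95, 96)]) (.leaf [(59, 91, 81, 76, 79), (65, 93, 81, 82,
  79), (78, 91, 94, 95, 96)])) (.sx 31 94 (.sy 13 27 (.leaf [(59, 87, 75, 91, 73), (68, 81, 96,
  85, 88), (80, 93, 96, 91, 88)]) (.leaf [(59, 87, 81, 91, 79), (74, 87, 96, 91, 88)])) (.sy 13
  27 (.leaf [(59, 87, 75, 91, 73), (68, 81, 96, 85, 94), (80, 93, 96, 91, 94)]) (.leaf [(59,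
  87, 81, 91, 79), (74, 87, 96, 91, 94)]))))))))) (.sx 18 55 (.sy 16 33 (.leaf [(63, 82, 79,
  84, 87), (69, 88, 85, 90, 87)]) (.sy 18 37 (.leaf [(63, 82, 79, 84, 93), (75, 94, 91, 96,
  93)]) (.leaf [(60, 79, 70, 96, 74), (69, 88, 91, 90, 93)]))) (.sx 22 67 (.sy 16 33 (.leaf
  [(63, 82, 79, 84, 87), (69, 88, 85, 92, 87)]) (.sy 18 37 (.leaf [(63, 82, 79, 84, 95), (75,
  94, 91, 96, 95)]) (.leaf [(60, 79, 70, 96, 74), (69, 88, 91, 92, 95)]))) (.sy 16 33 (.sx 25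
  76 (.leaf [(63, 82, 79, 84, 87), (69, 88, 85, 92, 87)]) (.sx 27 82 (.leaf [(59, 78, 87, 76,
  73), (69, 88, 85, 92, 87)]) (.sx 29 88 (.sy 15 31 (.sy 29 60 (.leaf [(59, 91, 87, 76, 79),
  (65, 93, 87, 82, 79), (78, 91, 94, 95, 96)]) (.sy 44 91 (.leaf [(59, 91, 87, 76, 79), (65,
  93, 87, 82, 79), (78, 91, 94, 95, 96)]) (.leaf [(59, 78, 91, 76, 79), (75, 94, 91, 96,
  89)]))) (.leaf [(59, 78, 91, 76, 79), (75, 94, 91, 96, 93)])) (.leaf [(59, 78, 87, 76, 85),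
  (71, 90, 87, 88, 85)])))) (.sx 25 76 (.sy 18 37 (.leaf [(63, 82, 79, 84, 95), (75, 94, 91,
  96, 95)]) (.sy 19 39 (.leaf [(63, 82, 79, 84, 95), (75, 94, 91, 96, 95)]) (.leaf [(60, 79,
  76, 96, 78), (75, 94, 91, 96, 95)]))) (.sx 27 82 (.sy 18 37 (.leaf [(59, 78, 91, 76, 73),
  (69, 88, 91, 92, 95)]) (.leaf [(50, 94, 72, 73, 70), (69, 88, 91, 92, 95)])) (.sx 29 88 (.sy
  18 37 (.leaf [(59, 78, 91, 76, 79), (75, 94, 91, 96, 95)]) (.leaf [(50, 94, 72, 73, 70), (69,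
  88, 91, 92, 95)])) (.sx 30 91 (.sy 18 37 (.leaf [(59, 78, 91, 76, 85), (75, 94, 91, 96, 95)])
  (.sy 19 39 (.leaf [(50, 94, 72, 88, 70), (65, 84, 93, 82, 85), (75, 94, 91, 96, 95)]) (.leaf
  [(56, 94, 78, 88, 76), (75, 94, 91, 96, 95)]))) (.sx 31 94 (.sy 18 37 (.leaf [(59, 78, 87,
  76, 91), (71, 94, 93, 88, 91)]) (.sy 19 39 (.leaf [(50, 94, 72, 88, 70), (65, 84, 93, 82,
  91), (71, 94, 93, 88, 91)]) (.leaf [(56, 94, 78, 88, 76), (71, 94, 93, 88, 91)]))) (.sy 18 37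
  (.leaf [(59, 78, 87, 76, 91), (71, 90, 93, 94, 91)]) (.sy 19 39 (.leaf [(50, 75, 72, 94, 70),
  (65, 84, 93, 82, 91), (77, 96, 93, 94, 91)]) (.leaf [(56, 84, 78, 94, 76), (71, 90, 93, 94,
  91)])))))))))))))))))

/-- points of a good sequence; `(a, b, c, d)` stands for `(a/b, c/d)` -/
def pts : List (ℕ × ℕ × ℕ × ℕ) :=
  [(24, 25, 24, 25), (8, 17, 11, 24), (10, 21, 19, 24), (24, 25, 1, 13), (0, 1, 17, 18),
  (1, 11, 1, 10), (2, 17, 5, 13), (8, 23, 1, 13), (5, 6, 7, 17), (1, 7, 17, 24),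
  (4, 11, 10, 17), (11, 17, 13, 19), (8, 11, 1, 23), (14, 19, 5, 18), (17, 23, 18, 19),
  (23, 25, 13, 20), (0, 1, 11, 20), (3, 13, 13, 17), (7, 24, 1, 4), (7, 19, 23, 24),
  (12, 25, 5, 23), (13, 23, 13, 14), (4, 7, 0, 1), (13, 19, 11, 20), (13, 14, 3, 13),
  (1, 15, 5, 24), (2, 9, 13, 25), (6, 25, 5, 12), (6, 23, 3, 23), (7, 23, 11, 13),
  (13, 24, 8, 19), (9, 16, 13, 22), (15, 23, 4, 17), (17, 24, 3, 8), (9, 11, 9, 11),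
  (24, 25, 10, 13), (0, 1, 7, 9), (1, 14, 16, 23), (4, 25, 23, 25), (3, 16, 2, 11),
  (6, 17, 9, 20), (3, 8, 7, 24), (12, 25, 2, 23), (3, 5, 11, 13), (17, 24, 13, 15),
  (16, 21, 14, 25), (17, 22, 9, 13), (15, 17, 10, 19), (11, 12, 8, 23), (0, 1, 5, 16),
  (4, 19, 3, 10), (6, 25, 1, 18), (5, 17, 5, 8), (7, 18, 18, 25), (12, 25, 8, 13),
  (12, 25, 20, 21), (12, 23, 8, 25), (12, 23, 17, 24), (8, 13, 1, 8), (10, 13, 3, 16),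
  (19, 23, 4, 13), (20, 23, 1, 16), (20, 23, 22, 23), (24, 25, 12, 25), (1, 25, 7, 17),
  (2, 19, 9, 16), (3, 22, 9, 19), (2, 13, 1, 21), (4, 21, 11, 18), (4, 19, 21, 25),
  (3, 11, 24, 25), (6, 17, 9, 25), (7, 17, 1, 9), (8, 19, 6, 7), (8, 13, 12, 25),
  (16, 25, 7, 20), (11, 13, 14, 23), (15, 17, 1, 9), (15, 17, 13, 18), (24, 25, 3, 19),
  (24, 25, 15, 17), (1, 18, 1, 22), (1, 15, 22, 25), (2, 15, 3, 13), (3, 22, 6, 7),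
  (5, 16, 3, 17), (6, 19, 17, 25), (2, 5, 7, 13), (4, 9, 7, 19), (1, 2, 17, 19),
  (9, 16, 3, 16), (13, 22, 3, 11), (13, 22, 11, 17), (11, 17, 1, 18), (15, 23, 19, 20),
  (15, 22, 17, 23), (18, 25, 7, 15), (11, 15, 19, 25), (16, 19, 4, 17), (15, 16, 11, 20),
  (0, 1, 8, 17), (1, 20, 1, 11), (2, 17, 17, 22), (1, 8, 7, 22), (1, 5, 18, 19),
  (5, 23, 11, 16), (5, 18, 12, 25), (5, 18, 11, 14), (4, 11, 13, 16), (9, 22, 5, 22),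
  (9, 20, 0, 1), (13, 24, 1, 11), (11, 20, 18, 23), (4, 7, 4, 11), (16, 23, 3, 17),
  (13, 17, 9, 23), (17, 22, 13, 15), (4, 5, 2, 21), (13, 16, 12, 25), (17, 20, 18, 23),
  (10, 11, 4, 9), (1, 22, 13, 21), (2, 21, 16, 25), (4, 21, 1, 12), (4, 21, 5, 14),
  (1, 4, 11, 19), (6, 23, 6, 17), (4, 13, 0, 1), (6, 17, 21, 23), (4, 9, 2, 7),
  (5, 11, 17, 25), (8, 17, 1, 2), (13, 25, 9, 16), (3, 5, 8, 15), (13, 20, 19, 24),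
  (7, 10, 16, 25), (17, 23, 1, 12), (18, 23, 5, 8), (15, 19, 1, 20), (4, 5, 15, 16),
  (9, 10, 17, 20), (19, 21, 5, 18), (16, 17, 17, 24), (21, 22, 6, 19), (1, 19, 1, 4),
  (2, 23, 2, 13), (2, 19, 15, 16), (1, 9, 1, 18), (3, 17, 19, 25), (4, 21, 9, 20),
  (1, 4, 3, 16), (8, 23, 13, 17), (6, 17, 10, 19), (5, 12, 5, 12), (5, 12, 11, 23),
  (10, 23, 10, 13), (9, 20, 12, 13), (11, 21, 0, 1), (8, 15, 6, 25), (4, 7, 13, 18),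
  (16, 25, 3, 17), (16, 25, 17, 19), (2, 3, 7, 16), (19, 25, 4, 5), (19, 23, 13, 24),
  (23, 25, 4, 23), (14, 15, 9, 23), (24, 25, 0, 1), (24, 25, 5, 8), (0, 1, 15, 22),
  (0, 1, 5, 6), (2, 25, 9, 11), (3, 19, 11, 20), (1, 6, 4, 15), (2, 9, 15, 17),
  (3, 13, 4, 17), (4, 13, 13, 14), (7, 22, 5, 17), (3, 8, 1, 6), (9, 23, 1, 17),
  (9, 23, 15, 23), (6, 13, 2, 13), (6, 11, 21, 25), (11, 20, 9, 19), (10, 17, 24, 25),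
  (5, 8, 14, 23), (13, 20, 5, 17), (13, 19, 1, 13), (18, 25, 5, 16), (14, 17, 4, 23),
  (14, 17, 17, 24), (17, 20, 21, 23), (6, 7, 7, 19), (17, 19, 10, 17), (12, 13, 12, 13),
  (21, 22, 14, 17), (0, 1, 3, 19), (1, 19, 13, 14), (1, 16, 6, 17), (1, 13, 9, 20),
  (1, 10, 13, 25), (2, 13, 24, 25), (6, 25, 9, 14), (2, 7, 1, 13), (5, 17, 10, 23),
  (4, 13, 14, 25), (5, 16, 5, 13), (8, 23, 6, 25), (8, 19, 24, 25), (3, 7, 14, 23),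
  (8, 17, 21, 25), (12, 25, 9, 23), (12, 23, 3, 22), (3, 5, 2, 5), (13, 19, 19, 23),
  (16, 23, 14, 15), (12, 17, 7, 10), (18, 25, 2, 9), (11, 15, 11, 21), (13, 17, 6, 23),
  (19, 24, 11, 25), (11, 13, 0, 1), (10, 11, 17, 22), (24, 25, 5, 23), (24, 25, 10, 23),
  (0, 1, 5, 23), (0, 1, 11, 15), (2, 19, 3, 11), (1, 8, 4, 23), (1, 7, 3, 7),
  (1, 7, 3, 5), (2, 13, 1, 9), (4, 25, 13, 20), (7, 24, 8, 11), (1, 3, 18, 25),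
  (6, 17, 0, 1), (3, 8, 22, 25), (7, 18, 1, 3), (11, 24, 13, 18), (1, 2, 15, 23),
  (13, 24, 24, 25), (11, 20, 6, 11), (14, 25, 3, 10), (10, 17, 1, 11), (13, 22, 4, 5),
  (13, 20, 9, 23), (18, 25, 13, 22), (19, 25, 9, 10), (17, 22, 1, 3), (4, 5, 7, 12),
  (17, 21, 3, 22), (20, 23, 17, 25), (14, 15, 1, 18), (14, 15, 24, 25), (24, 25, 4, 15),
  (24, 25, 4, 7), (0, 1, 4, 11), (1, 12, 3, 10), (2, 23, 14, 19), (1, 10, 24, 25),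
  (1, 5, 0, 1), (5, 24, 2, 17), (5, 23, 9, 16), (6, 23, 15, 16), (4, 15, 19, 23),
  (3, 11, 3, 10), (3, 11, 15, 22), (3, 10, 2, 17), (6, 19, 13, 25), (8, 25, 24, 25),
  (8, 19, 7, 22), (3, 7, 4, 21), (11, 24, 13, 23), (8, 17, 1, 4), (13, 23, 3, 22),
  (13, 23, 17, 25), (10, 17, 4, 9), (13, 21, 0, 1), (5, 8, 19, 25), (13, 20, 10, 19),
  (7, 10, 2, 17), (19, 25, 2, 17), (7, 9, 14, 19), (13, 16, 24, 25), (17, 20, 9, 19),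
  (6, 7, 2, 11), (22, 25, 22, 25), (24, 25, 5, 13), (24, 25, 17, 25), (0, 1, 0, 1),
  (1, 19, 11, 19), (1, 11, 5, 12), (1, 7, 4, 5), (1, 6, 8, 9), (3, 17, 12, 23),
  (2, 11, 13, 16), (3, 16, 2, 5), (5, 21, 8, 17), (6, 23, 0, 1), (1, 3, 2, 5),
  (4, 11, 3, 25), (3, 8, 13, 21), (2, 5, 0, 1), (2, 5, 14, 15), (9, 22, 17, 21),
  (13, 25, 3, 16), (11, 21, 3, 4), (10, 19, 3, 8), (13, 20, 17, 20), (15, 23, 15, 23),
  (17, 25, 0, 1), (5, 7, 24, 25), (17, 23, 13, 20), (19, 25, 12, 25), (4, 5, 17, 20),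
  (13, 16, 6, 23), (9, 11, 7, 20), (21, 25, 15, 23), (20, 23, 7, 22), (8, 9, 4, 5),
  (23, 25, 1, 9), (16, 17, 0, 1), (17, 18, 1, 2), (24, 25, 16, 17), (0, 1, 1, 9),
  (0, 1, 1, 2), (0, 1, 22, 25), (0, 1, 24, 25), (1, 13, 8, 15), (2, 17, 15, 22),
  (1, 6, 3, 14), (4, 21, 8, 11), (5, 22, 24, 25), (3, 10, 1, 3), (8, 25, 7, 8),
  (4, 11, 1, 5), (7, 18, 3, 7), (9, 23, 16, 21), (4, 9, 1, 13), (9, 19, 8, 9),
  (1, 2, 5, 18), (1, 2, 5, 11), (12, 23, 1, 2), (11, 20, 15, 17), (3, 5, 5, 24),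
  (11, 18, 12, 17), (8, 13, 8, 25), (8, 13, 12, 13), (5, 8, 1, 4), (15, 23, 2, 17),
  (15, 23, 12, 25), (17, 25, 8, 13), (9, 13, 7, 22), (14, 19, 8, 19), (7, 9, 0, 1),
  (19, 23, 19, 25), (19, 22, 4, 15), (20, 23, 3, 7), (17, 18, 21, 25), (23, 24, 13, 18),
  (24, 25, 2, 17), (0, 1, 1, 13), (0, 1, 4, 15), (1, 19, 24, 25), (1, 13, 17, 22),
  (1, 10, 0, 1), (3, 22, 3, 22), (4, 23, 6, 19), (1, 5, 4, 25), (3, 14, 1, 4),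
  (4, 17, 7, 18), (5, 21, 13, 18), (6, 23, 11, 21), (7, 25, 4, 19), (7, 25, 8, 9),
  (8, 25, 8, 13), (8, 23, 12, 25), (9, 22, 4, 7), (7, 17, 12, 17), (7, 16, 13, 20),
  (5, 11, 2, 17), (5, 11, 7, 17), (10, 21, 1, 3), (12, 23, 18, 19), (13, 24, 5, 8),
  (13, 23, 4, 17), (14, 23, 4, 7), (5, 8, 24, 25), (8, 11, 1, 6), (14, 19, 14, 17),
  (16, 21, 22, 23), (7, 9, 5, 23), (15, 19, 7, 9), (19, 24, 12, 23), (17, 19, 1, 24),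
  (17, 19, 2, 9), (17, 19, 12, 19), (9, 10, 12, 25), (17, 18, 3, 5), (24, 25, 7, 13),
  (0, 1, 3, 5), (1, 18, 15, 23), (1, 13, 12, 25), (2, 21, 3, 5), (2, 21, 17, 20),
  (2, 15, 3, 4), (3, 22, 1, 3), (3, 19, 3, 8), (1, 6, 1, 24), (1, 5, 15, 23),
  (1, 4, 5, 18), (7, 22, 7, 9), (8, 25, 2, 9), (9, 25, 17, 25), (2, 5, 4, 15),
  (9, 22, 1, 7), (11, 24, 24, 25), (12, 25, 3, 4), (1, 2, 11, 13), (13, 25, 1, 22),
  (13, 23, 1, 2), (3, 5, 9, 10), (14, 23, 1, 6), (12, 19, 9, 20), (2, 3, 24, 25),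
  (17, 25, 3, 14), (9, 13, 4, 15), (9, 13, 7, 17), (9, 13, 18, 23), (12, 17, 1, 2),
  (14, 19, 9, 13), (17, 23, 8, 23), (15, 19, 6, 19), (19, 23, 1, 21), (17, 20, 20, 23),
  (17, 19, 7, 18), (9, 10, 19, 20), (21, 23, 3, 10), (17, 18, 8, 9), (19, 20, 19, 25),
  (24, 25, 1, 3), (0, 1, 11, 17), (1, 23, 7, 22), (1, 21, 0, 1), (1, 19, 9, 23),
  (1, 9, 5, 23), (1, 9, 15, 17), (2, 17, 9, 19), (2, 11, 24, 25), (4, 21, 12, 25),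
  (5, 22, 4, 5), (4, 17, 3, 22), (1, 4, 13, 15), (5, 19, 3, 5), (7, 22, 3, 19),
  (7, 22, 14, 17), (1, 3, 1, 8), (1, 3, 11, 19), (3, 8, 17, 20), (9, 23, 8, 17),
  (2, 5, 5, 13), (3, 7, 19, 21), (4, 9, 13, 24), (12, 25, 1, 24), (12, 25, 6, 19),
  (1, 2, 4, 5), (9, 16, 1, 14), (10, 17, 1, 3), (10, 17, 19, 25), (3, 5, 1, 13),
  (15, 23, 11, 19), (15, 23, 8, 11), (13, 18, 0, 1), (3, 4, 3, 5), (17, 21, 2, 3),
  (13, 16, 9, 23), (16, 19, 4, 7), (17, 20, 2, 17), (6, 7, 24, 25), (13, 15, 3, 19),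
  (13, 15, 11, 15), (10, 11, 4, 21), (14, 15, 9, 19), (24, 25, 13, 16), (0, 1, 3, 17),
  (1, 25, 14, 17), (1, 17, 17, 20), (1, 13, 3, 19), (3, 25, 19, 24), (3, 23, 1, 2),
  (1, 6, 9, 13), (2, 11, 20, 23), (3, 14, 3, 5), (5, 22, 1, 25), (5, 21, 1, 3),
  (6, 25, 11, 12), (1, 4, 2, 17), (6, 23, 17, 23), (5, 19, 9, 23), (7, 23, 7, 15),
  (8, 25, 2, 25), (1, 3, 8, 25), (4, 9, 3, 14), (12, 25, 1, 6), (12, 25, 12, 17),
  (1, 2, 7, 20), (1, 2, 12, 25), (1, 2, 10, 17), (1, 2, 24, 25), (9, 17, 2, 3),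
  (7, 12, 3, 5), (17, 25, 7, 20), (15, 22, 10, 11), (9, 13, 3, 22), (18, 25, 15, 17),
  (17, 23, 2, 15), (17, 23, 17, 23), (13, 17, 10, 23), (4, 5, 0, 1), (13, 16, 19, 21),
  (14, 17, 5, 21), (13, 15, 1, 2), (13, 15, 19, 23), (10, 11, 3, 19), (21, 23, 13, 19),
  (17, 18, 3, 19), (22, 23, 3, 7), (24, 25, 3, 17), (24, 25, 13, 15), (0, 1, 5, 12),
  (1, 17, 14, 19), (1, 14, 3, 17), (1, 12, 6, 17), (2, 17, 4, 21), (1, 8, 3, 11),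
  (1, 8, 2, 3), (2, 15, 0, 1), (3, 19, 21, 23), (4, 21, 11, 19), (6, 25, 1, 5),
  (5, 18, 9, 20), (7, 25, 13, 20), (1, 3, 13, 20), (1, 3, 22, 23), (8, 23, 2, 7),
  (5, 14, 5, 6), (9, 23, 24, 25), (3, 7, 13, 18), (7, 16, 1, 2), (11, 25, 4, 25),
  (5, 11, 19, 23), (11, 23, 15, 23), (12, 25, 0, 1), (12, 25, 7, 16), (1, 2, 3, 25),
  (11, 20, 14, 17), (5, 9, 2, 7), (11, 19, 2, 5), (13, 21, 8, 11), (9, 14, 1, 8),
  (15, 23, 0, 1), (2, 3, 8, 17), (2, 3, 5, 6), (5, 7, 14, 25), (3, 4, 1, 2),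
  (16, 21, 24, 25), (15, 19, 3, 20), (19, 23, 7, 11), (7, 8, 6, 17), (7, 8, 5, 9),
  (22, 25, 24, 25), (17, 19, 0, 1), (11, 12, 2, 3), (23, 25, 5, 18), (23, 24, 7, 12),
  (24, 25, 7, 23), (0, 1, 5, 14), (0, 1, 4, 7), (0, 1, 17, 20), (2, 17, 1, 2),
  (3, 19, 13, 23), (3, 19, 15, 16), (4, 25, 3, 19), (1, 6, 8, 21), (4, 21, 0, 1),
  (1, 5, 5, 12), (3, 13, 1, 2), (4, 13, 24, 25), (7, 22, 1, 2), (8, 25, 5, 7),
  (8, 23, 1, 6), (4, 11, 2, 25), (4, 11, 4, 11), (4, 11, 1, 2), (4, 11, 12, 23),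
  (3, 8, 0, 1), (7, 18, 5, 18), (3, 7, 7, 20), (7, 16, 1, 13), (10, 21, 8, 13),
  (12, 25, 19, 24), (1, 2, 13, 24), (11, 20, 5, 24), (4, 7, 10, 11), (10, 17, 11, 20),
  (13, 22, 17, 20), (3, 5, 13, 20), (14, 23, 4, 11), (14, 23, 13, 16), (11, 18, 2, 25),
  (8, 13, 4, 13), (11, 17, 11, 18), (15, 23, 5, 18), (17, 25, 11, 23), (17, 23, 13, 15),
  (3, 4, 9, 23), (3, 4, 24, 25), (19, 24, 2, 3), (5, 6, 5, 11), (5, 6, 3, 4),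
  (8, 9, 7, 17), (22, 23, 7, 20), (24, 25, 7, 15), (24, 25, 2, 3), (24, 25, 3, 4)]

theorem cert_ok : check 96 63 84 cert 24 84 28 84 40 84 41 84 = true := by decide +kernel

/-- cell code of a point -/
def code (k : ℕ) (p : ℕ × ℕ × ℕ × ℕ) : ℕ := (k * p.1 / p.2.1) * k + k * p.2.2.1 / p.2.2.2

/-- set of cell codes as a bit mask -/
def mask (k : ℕ) : List (ℕ × ℕ × ℕ × ℕ) → ℕ
  | [] => 0
  | p :: t => (1 <<< code k p) ||| mask k t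

/-- the order reached by the data -/
def KK : ℕ := 25

theorem pts_len : pts.length = KK ^ 2 := by decide +kernel

theorem pts_valid : pts.all (fun p => Nat.blt p.1 p.2.1 && Nat.blt p.2.2.1 p.2.2.2) = true := by
  decide +kernel

theorem pts_mask : (List.range KK).all (fun k =>
    Nat.beq (mask (k + 1) (pts.take ((k + 1) ^ 2))) (2 ^ ((k + 1) ^ 2) - 1)) = true := by
  decide +kernel

end Pool.Agent.R145.Nest
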