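import Mathlib
import Pool.Agent.R145.Nest.Data

/-!
The long good sequence.
-/

namespace Pool.Agent.R145.Nest

theorem testBit_mask (k : ℕ) (l : List (ℕ × ℕ × ℕ × ℕ)) (c : ℕ) :
    (mask k l).testBit c = true ↔ ∃ p ∈ l, code k p = c := by
  induction l with
  | nil => simp [mask]
  | cons p t ih =>
    rw [mask, Nat.testBit_or, Bool.or_eq_true, ih, Nat.one_shiftLeft, Nat.testBit_two_pow]
    simp [eq_comm]

/-- the n-th data point -/
def dat (n : Fin (KK ^ 2)) : ℕ × ℕ × ℕ × ℕ := pts.get (Fin.cast pts_len.symm n)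

/-- the sequence -/
noncomputable def seq (n : Fin (KK ^ 2)) : ℝ × ℝ :=
  (((dat n).1 : ℝ) / (dat n).2.1, ((dat n).2.2.1 : ℝ) / (dat n).2.2.2)

theorem dat_valid (n : Fin (KK ^ 2)) : (dat n).1 < (dat n).2.1 ∧ (dat n).2.2.1 < (dat n).2.2.2 := by
  have h := pts_valid
  rw [List.all_eq_true] at h
  have := h (dat n) (List.get_mem _ _)
  simpa [Nat.blt_eq] using this

theorem floor_seq (k : ℕ) (n : Fin (KK ^ 2)) :
    ⌊(k : ℝ) * (seq n).1⌋₊ = k * (dat n).1 / (dat n).2.1 ∧
    ⌊(k : ℝ) * (seq n).2⌋₊ = k * (dat n).2.2.1 / (dat n).2.2.2 := by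
  constructor
  · have : (k : ℝ) * (seq n).1 = ((k * (dat n).1 : ℕ) : ℝ) / ((dat n).2.1 : ℕ) := by
      simp only [seq]; push_cast; ring
    rw [this, Nat.floor_div_eq_div]
  · have : (k : ℝ) * (seq n).2 = ((k * (dat n).2.2.1 : ℕ) : ℝ) / ((dat n).2.2.2 : ℕ) := by
      simp only [seq]; push_cast; ring
    rw [this, Nat.floor_div_eq_div]

theorem seq_mem (n : Fin (KK ^ 2)) : seq n ∈ Q := by
  obtain ⟨h1, h2⟩ := dat_valid n
  have h1' : ((dat n).1 : ℝ) < (dat n).2.1 := by exact_mod_cast h1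
  have h2' : ((dat n).2.2.1 : ℝ) < (dat n).2.2.2 := by exact_mod_cast h2
  have p1 : (0 : ℝ) ≤ (dat n).1 := Nat.cast_nonneg _
  have p2 : (0 : ℝ) ≤ (dat n).2.2.1 := Nat.cast_nonneg _
  refine ⟨by simp only [seq]; positivity, ?_, by simp only [seq]; positivity, ?_⟩
  · simp only [seq]
    rw [div_lt_one (by linarith)]
    exact h1'
  · simp only [seq]
    rw [div_lt_one (by linarith)]
    exact h2'

theorem code_lt {k : ℕ} (hk : 1 ≤ k) (n : Fin (KK ^ 2)) :
    k * (dat n).1 / (dat n).2.1 < k ∧ k * (dat n).2.2.1 / (dat n).2.2.2 < k := by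
  obtain ⟨h1, h2⟩ := dat_valid n
  constructor
  · exact Nat.div_lt_of_lt_mul (by nlinarith)
  · exact Nat.div_lt_of_lt_mul (by nlinarith)

theorem seq_good : KGood KK seq := by
  refine ⟨seq_mem, fun k hk hkK i hi j hj => ?_⟩
  have hk2 : k ^ 2 ≤ KK ^ 2 := Nat.pow_le_pow_left hkK 2
  -- index map
  set F : Fin (k ^ 2) → Fin (KK ^ 2) := fun n => ⟨n.1, lt_of_lt_of_le n.2 hk2⟩ with hF
  have hcodelt : ∀ n : Fin (KK ^ 2), code k (dat n) < k ^ 2 := by
    intro n
    obtain ⟨h1, h2⟩ := code_lt hk n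
    rw [code]
    have : (k * (dat n).1 / (dat n).2.1) * k ≤ (k - 1) * k := Nat.mul_le_mul_right _ (by omega)
    have h3 : (k - 1) * k + k = k ^ 2 := by
      obtain ⟨r, rfl⟩ : ∃ r, k = r + 1 := ⟨k - 1, by omega⟩
      simp only [Nat.add_sub_cancel]; ring
    omega
  set C : Fin (k ^ 2) → Fin (k ^ 2) := fun n => ⟨code k (dat (F n)), hcodelt _⟩ with hC
  have hsurj : Function.Surjective C := by
    intro c
    have hm := pts_mask
    rw [List.all_eq_true] at hm
    have h1 := hm (k - 1) (by rw [List.mem_range]; omega)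
    rw [Nat.sub_add_cancel hk, Nat.beq_eq] at h1
    have h2 : (mask k (pts.take (k ^ 2))).testBit c.1 = true := by
      rw [h1, Nat.testBit_two_pow_sub_one]
      simp
    rw [testBit_mask] at h2
    obtain ⟨p, hp, hpc⟩ := h2
    rw [List.mem_take_iff_getElem] at hp
    obtain ⟨a, ha, hpa⟩ := hp
    rw [lt_min_iff] at ha
    refine ⟨⟨a, ha.1⟩, ?_⟩
    apply Fin.ext
    simp only [hC, hF, dat, List.get_eq_getElem, Fin.val_cast]
    rw [hpa]
    exact hpc
  have hinj : Function.Injective C := Finite.injective_iff_surjective.2 hsurj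
  have hcell : ∀ n : Fin (KK ^ 2), seq n ∈ cell k i j ↔ code k (dat n) = i * k + j := by
    intro n
    rw [mem_cell_iff hk (seq_mem n), (floor_seq k n).1, (floor_seq k n).2, code]
    obtain ⟨h1, h2⟩ := code_lt hk n
    constructor
    · rintro ⟨e1, e2⟩
      rw [e1, e2]
    · intro h
      have e1 : k * (dat n).1 / (dat n).2.1 = i := by
        have h3 : (k * (dat n).1 / (dat n).2.1 * k + k * (dat n).2.2.1 / (dat n).2.2.2) / k =
            (i * k + j) / k := by rw [h]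
        rw [Nat.mul_comm _ k, Nat.mul_add_div (by omega), Nat.div_eq_of_lt h2, Nat.mul_comm i k,
          Nat.mul_add_div (by omega), Nat.div_eq_of_lt hj] at h3
        simpa using h3
      refine ⟨e1, ?_⟩
      rw [e1] at h
      omega
  have hij : i * k + j < k ^ 2 := by
    have : i * k ≤ (k - 1) * k := Nat.mul_le_mul_right _ (by omega)
    have h3 : (k - 1) * k + k = k ^ 2 := by
      obtain ⟨r, rfl⟩ : ∃ r, k = r + 1 := ⟨k - 1, by omega⟩
      simp only [Nat.add_sub_cancel]; ring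
    omega
  obtain ⟨a, ha⟩ := hsurj ⟨i * k + j, hij⟩
  refine ⟨F a, ⟨a.2, ?_⟩, ?_⟩
  · rw [hcell]
    exact congrArg Fin.val ha
  · rintro n ⟨hn, hnc⟩
    rw [hcell] at hnc
    have e1 : C ⟨n.1, hn⟩ = C a := by
      rw [ha]
      apply Fin.ext
      exact hnc
    have := hinj e1
    rw [← this]

end Pool.Agent.R145.Nest
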